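import Mathlib

set_option autoImplicit false

namespace Pool.Agent.H.MP_2709b3_lc

def KL : List (ℕ × ℕ) := [(1, 0), (1, 2), (3, 2), (4, 3), (4, 5), (5, 6), (6, 7), (7, 8), (0, 9),
  (10, 9), (10, 11), (12, 11), (13, 12), (14, 13), (15, 14), (16, 0), (16, 17), (17, 18), (19, 18),
  (20, 19), (21, 20)]

abbrev Tu := ℕ × ℕ × ℕ × ℕ
abbrev Cl := Tu × List ℕ
abbrev St := ℕ × ℕ × ℕ × Tu

def mk7 (k a b t1 t2 t3 t4 : ℕ) : St := (k, a, b, t1, t2, t3, t4)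

def d0 : Cl := ((0, 0, 0, 0), [0])

def ed (t u : Tu) : Prop :=
  (t.1, u.1) ∈ KL ∧ (t.2.1, u.2.1) ∈ KL ∧ (t.2.2.1, u.2.2.1) ∈ KL ∧ (t.2.2.2, u.2.2.2) ∈ KL

instance (t u : Tu) : Decidable (ed t u) := by unfold ed; infer_instance

def sg (t u : Tu) : Prop := t.2.2.2 = t.1 ∧ u = (t.2.1, t.1, t.2.1, t.2.2.1)

instance (t u : Tu) : Decidable (sg t u) := by unfold sg; infer_instance

def nw (c : Cl) (k : ℕ) (u : Tu) : Cl :=
  if k = 0 ∧ ed c.1 u ∧ 8 ∉ c.2 then (u, (KL.filter (fun e => e.1 ∈ c.2)).map Prod.snd)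
  else if k = 1 ∧ ed u c.1 ∧ 15 ∉ c.2 then (u, (KL.filter (fun e => e.2 ∈ c.2)).map Prod.fst)
  else if sg c.1 u ∨ sg u c.1 then (u, c.2) else d0

def mt (c o : Cl) : Cl := if o.1 = c.1 then (c.1, c.2.filter (fun v => v ∈ o.2)) else c

def step (L : List Cl) (s : St) : List Cl :=
  L ++ [mt (nw (L.getD s.2.1 d0) s.1 s.2.2.2) (L.getD s.2.2.1 d0)]

def ini : List Cl := (List.range 16).map (fun i => ((i, i, i, i), [i]))

def c0 : List St := [mk7 0 4 999 3 5 3 3, mk7 0 16 999 2 6 2 2, mk7 1 17 999 1 5 1 1, mk7 0 18 999 0 6 0 0, 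
   mk7 1 19 999 16 5 16 16, mk7 0 20 999 17 6 17 17, mk7 0 21 999 18 7 18 18, mk7 1 22 999 19 6 19 19, 
   mk7 1 0 999 16 1 16 16, mk7 0 24 999 17 0 17 17, mk7 0 25 999 18 9 18 18, mk7 1 26 999 19 0 19 19, 
   mk7 1 27 999 20 1 20 20, mk7 0 28 999 19 2 19 19, mk7 1 29 999 20 3 20 20, mk7 1 30 999 21 4 21 21, 
   mk7 0 31 999 20 5 20 20, mk7 1 23 32 20 5 20 20, mk7 0 33 999 19 6 19 19, mk7 0 34 999 18 7 18 18, 
   mk7 1 22 21 17 6 17 17, mk7 1 35 36 17 6 17 17]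

def c6 : List St := [mk7 0 16 999 18 7 18 18, mk7 1 17 999 19 6 19 19, mk7 1 18 999 20 5 20 20, mk7 1 19 999 21 4 21 21, 
   mk7 1 0 999 16 1 16 16, mk7 0 21 999 17 0 17 17, mk7 0 22 999 18 9 18 18, mk7 1 23 999 19 0 19 19, 
   mk7 1 24 999 20 1 20 20, mk7 0 25 999 19 2 19 19, mk7 1 26 999 20 3 20 20, mk7 1 27 999 21 4 21 21, 
   mk7 0 28 27 20 3 20 20, mk7 0 20 29 20 3 20 20, mk7 0 30 999 19 2 19 19, mk7 0 29 999 19 2 19 19, 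
   mk7 1 32 25 20 1 20 20, mk7 1 31 33 20 1 20 20, mk7 0 25 24 19 0 19 19, mk7 0 33 35 19 0 19 19, 
   mk7 0 34 36 19 0 19 19, mk7 0 37 999 18 9 18 18, mk7 1 23 999 17 10 17 17, mk7 0 39 999 18 11 18 18, 
   mk7 1 40 999 19 12 19 19, mk7 1 41 999 20 13 20 20, mk7 1 42 999 21 14 21 21, mk7 0 43 999 20 13 20 20, 
   mk7 0 44 999 19 12 19 19, mk7 0 45 999 18 11 18 18, mk7 1 46 39 17 10 17 17, mk7 1 38 47 17 10 17 17, 
   mk7 0 48 46 18 11 18 18, mk7 1 0 999 1 1 1 16, mk7 0 50 999 0 0 0 17, mk7 0 51 999 9 9 9 18, 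
   mk7 1 52 999 0 10 0 17, mk7 0 53 999 9 11 9 18, mk7 1 54 999 0 12 0 19, mk7 1 55 999 16 13 16 20, 
   mk7 1 40 999 17 12 17 19, mk7 0 56 57 17 12 17 19, mk7 1 46 58 17 12 17 19, mk7 1 49 59 17 12 17 19, 
   mk7 1 60 999 16 13 16 20, mk7 1 16 999 16 5 16 16, mk7 0 62 999 0 6 17 0, mk7 0 63 999 9 7 18 9, 
   mk7 1 64 999 10 6 17 10, mk7 0 65 999 11 7 18 11, mk7 1 66 999 12 6 19 12, mk7 1 67 999 13 5 20 13, 
   mk7 1 68 999 14 4 21 14, mk7 1 0 999 1 1 16 1, mk7 0 70 999 0 0 17 0, mk7 0 71 999 9 9 18 9, 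
   mk7 1 72 999 10 0 17 10, mk7 0 73 999 11 9 18 11, mk7 1 74 999 12 0 19 12, mk7 1 75 999 13 1 20 13, 
   mk7 0 76 999 12 2 19 12, mk7 1 77 999 13 3 20 13, mk7 1 78 999 14 4 21 14, mk7 0 79 78 13 3 20 13, 
   mk7 0 69 80 13 3 20 13, mk7 0 81 999 12 2 19 12, mk7 0 80 999 12 2 19 12, mk7 1 83 76 13 1 20 13, 
   mk7 1 82 84 13 1 20 13, mk7 0 76 75 12 0 19 12, mk7 0 84 86 12 0 19 12, mk7 0 85 87 12 0 19 12, 
   mk7 2 88 999 0 12 0 19, mk7 0 61 89 0 12 0 19]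

def c17 : List St := [mk7 0 16 999 18 7 18 18, mk7 0 4 999 3 5 3 3, mk7 0 18 999 2 6 2 2, mk7 1 19 999 1 5 1 1, 
   mk7 0 20 999 0 6 0 0, mk7 1 21 999 16 5 16 16, mk7 0 22 999 17 6 17 17, mk7 0 23 999 18 7 18 18, 
   mk7 1 24 999 19 6 19 19, mk7 1 0 999 16 1 16 16, mk7 0 26 999 17 0 17 17, mk7 0 27 999 18 9 18 18, 
   mk7 1 28 999 19 0 19 19, mk7 1 29 999 20 1 20 20, mk7 0 30 999 19 2 19 19, mk7 1 31 999 20 3 20 20, 
   mk7 1 32 999 21 4 21 21, mk7 0 33 999 20 5 20 20, mk7 1 25 34 20 5 20 20, mk7 0 35 999 19 6 19 19, 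
   mk7 1 17 36 19 6 19 19, mk7 1 37 999 20 5 20 20, mk7 1 38 999 21 4 21 21, mk7 0 39 999 20 3 20 20, 
   mk7 0 40 999 19 2 19 19, mk7 1 41 999 20 1 20 20, mk7 0 42 999 19 0 19 19, mk7 0 43 999 18 9 18 18, 
   mk7 1 44 999 17 10 17 17, mk7 0 45 999 18 11 18 18, mk7 1 46 999 17 12 19 17, mk7 1 47 999 16 13 20 16, 
   mk7 1 16 999 16 5 16 16, mk7 0 49 999 0 6 0 17, mk7 0 50 999 9 7 9 18, mk7 1 21 999 1 5 1 16, 
   mk7 0 52 999 0 6 0 17, mk7 0 53 999 9 7 9 18, mk7 1 54 999 10 6 10 17, mk7 0 55 999 11 7 11 18, 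
   mk7 1 56 999 12 6 12 19, mk7 1 0 999 1 1 1 16, mk7 0 58 999 0 0 0 17, mk7 0 59 999 9 9 9 18, 
   mk7 1 60 999 10 0 10 17, mk7 0 61 999 11 9 11 18, mk7 1 62 999 12 0 12 19, mk7 1 63 999 13 1 13 20, 
   mk7 0 64 999 12 2 12 19, mk7 1 65 999 13 3 13 20, mk7 1 66 999 14 4 14 21, mk7 0 67 999 13 5 13 20, 
   mk7 1 57 68 13 5 13 20, mk7 0 69 999 12 6 12 19, mk7 0 70 999 11 7 11 18, mk7 1 71 55 10 6 10 17, 
   mk7 1 51 72 10 6 10 17, mk7 0 73 71 11 7 11 18, mk7 1 74 70 12 6 12 19, mk7 1 75 999 13 5 13 20, 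
   mk7 1 76 999 14 4 14 21, mk7 0 77 999 13 3 13 20, mk7 0 78 999 12 2 12 19, mk7 1 79 999 13 1 13 20, 
   mk7 0 80 999 12 0 12 19, mk7 2 81 999 0 12 19 0, mk7 0 48 82 0 12 19 0, mk7 0 83 999 9 11 18 9, 
   mk7 1 84 999 0 10 17 10, mk7 0 21 999 9 7 9 9, mk7 1 86 21 0 6 0 0, mk7 0 49 87 0 6 0 0, 
   mk7 0 88 999 9 7 9 9, mk7 0 10 999 11 9 11 11, mk7 1 90 999 12 0 12 12, mk7 1 91 999 13 1 13 13, 
   mk7 0 92 999 12 2 12 12, mk7 1 93 999 13 3 13 13, mk7 1 94 999 14 4 14 14, mk7 0 95 999 13 5 13 13, 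
   mk7 1 86 999 10 6 10 10, mk7 0 97 999 11 7 11 11, mk7 1 98 999 12 6 12 12, mk7 0 96 99 12 6 12 12, 
   mk7 0 100 999 11 7 11 11, mk7 1 101 97 10 6 10 10, mk7 1 89 102 10 6 10 10, mk7 0 103 101 11 7 11 11, 
   mk7 1 104 100 12 6 12 12, mk7 1 105 999 13 5 13 13, mk7 1 106 999 14 4 14 14, mk7 0 107 999 13 3 13 13, 
   mk7 0 108 999 12 2 12 12, mk7 1 109 999 13 1 13 13, mk7 0 110 999 12 0 12 12, mk7 1 111 999 13 16 13 13, 
   mk7 2 112 999 16 13 16 13, mk7 0 113 999 0 12 17 12, mk7 0 114 999 9 11 18 11, mk7 0 85 115 9 11 18 11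
   ]

lemma k0 : ∃ c ∈ c0.foldl step ini, c.1 = (17, 6, 17, 17) ∧ ∀ v ∈ c.2, v = 6 ∨ v = 17 := by
  decide +kernel

lemma k6 : ∃ c ∈ c6.foldl step (ini ++ [((17, 6, 17, 17), [6])]), c.2 = [] := by
  decide +kernel

lemma k17 : ∃ c ∈ c17.foldl step (ini ++ [((17, 6, 17, 17), [17])]), c.2 = [] := by
  decide +kernel

lemma KL_lt : ∀ e ∈ KL, e.1 < 22 ∧ e.2 < 22 := by decide

variable {V : Type*}

structure Cfg (E : V → V → Prop) (g : ℕ → V) : Prop where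
  inj : ∀ i < 22, ∀ j < 22, g i = g j → i = j
  edge : ∀ e ∈ KL, E (g e.1) (g e.2)
  out : ∀ i < 22, i ≠ 8 → ∀ w, E (g i) w → ∃ j, (i, j) ∈ KL ∧ w = g j
  inn : ∀ i < 22, i ≠ 15 → ∀ w, E w (g i) → ∃ j, (j, i) ∈ KL ∧ w = g j

structure Sig (E : V → V → Prop) (s : V → V → V → V → V) : Prop where
  id : ∀ a r e, s a r e a = s r a r e
  pol : ∀ x₁ x₂ x₃ x₄ y₁ y₂ y₃ y₄, E x₁ y₁ → E x₂ y₂ → E x₃ y₃ → E x₄ y₄ →
    E (s x₁ x₂ x₃ x₄) (s y₁ y₂ y₃ y₄)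

def val (s : V → V → V → V → V) (g : ℕ → V) (t : Tu) : V :=
  s (g t.1) (g t.2.1) (g t.2.2.1) (g t.2.2.2)

def Ho (s : V → V → V → V → V) (g : ℕ → V) (c : Cl) : Prop :=
  ∃ v ∈ c.2, v < 22 ∧ val s g c.1 = g v

variable {E : V → V → Prop} {g : ℕ → V} {s : V → V → V → V → V}

lemma ed_val (hg : Cfg E g) (hs : Sig E s) {t u : Tu} (h : ed t u) : E (val s g t) (val s g u) :=
  hs.pol _ _ _ _ _ _ _ _ (hg.edge _ h.1) (hg.edge _ h.2.1) (hg.edge _ h.2.2.1) (hg.edge _ h.2.2.2)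

lemma sg_val (hs : Sig E s) {t u : Tu} (h : sg t u) : val s g t = val s g u := by
  obtain ⟨h1, rfl⟩ := h
  unfold val
  rw [h1]; exact hs.id _ _ _

lemma ho_nw (hg : Cfg E g) (hs : Sig E s) (h0 : Ho s g d0) {c : Cl} (hc : Ho s g c) (k : ℕ)
    (u : Tu) : Ho s g (nw c k u) := by
  obtain ⟨v, hv, hv2, he⟩ := hc
  unfold nw
  split_ifs with h1 h2 h3
  · have := ed_val hg hs h1.2.1
    rw [he] at this
    obtain ⟨j, hj, hw⟩ := hg.out v hv2 (fun h => h1.2.2 (h ▸ hv)) _ this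
    exact ⟨j, List.mem_map.2 ⟨(v, j), List.mem_filter.2 ⟨hj, by simpa using hv⟩, rfl⟩,
      (KL_lt _ hj).2, hw⟩
  · have := ed_val hg hs h2.2.1
    rw [he] at this
    obtain ⟨j, hj, hw⟩ := hg.inn v hv2 (fun h => h2.2.2 (h ▸ hv)) _ this
    exact ⟨j, List.mem_map.2 ⟨(j, v), List.mem_filter.2 ⟨hj, by simpa using hv⟩, rfl⟩,
      (KL_lt _ hj).1, hw⟩
  · refine ⟨v, hv, hv2, ?_⟩
    rcases h3 with h | h
    · rw [← he]; exact (sg_val hs h).symm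
    · rw [← he]; exact sg_val hs h
  · exact h0

lemma ho_mt (hg : Cfg E g) {c o : Cl} (hc : Ho s g c) (ho : Ho s g o) : Ho s g (mt c o) := by
  unfold mt
  split_ifs with h
  · obtain ⟨v, hv, hv2, he⟩ := hc
    obtain ⟨w, hw, hw2, he2⟩ := ho
    rw [h, he] at he2
    obtain rfl := hg.inj _ hv2 _ hw2 he2
    exact ⟨v, List.mem_filter.2 ⟨hv, by simpa using hw⟩, hv2, he⟩
  · exact hc

lemma ho_run (hg : Cfg E g) (hs : Sig E s) (h0 : Ho s g d0) (P : List St) :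
    ∀ L : List Cl, (∀ c ∈ L, Ho s g c) → ∀ c ∈ P.foldl step L, Ho s g c := by
  induction P with
  | nil => intro L h; exact h
  | cons a P ih =>
    intro L h
    refine ih _ fun c hc => ?_
    have hd : ∀ i, Ho s g (L.getD i d0) := fun i => by
      rw [List.getD_eq_getElem?_getD]
      cases hi : L[i]? with
      | none => exact h0
      | some x => exact h x (List.mem_of_getElem? hi)
    rcases List.mem_append.1 hc with hc | hc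
    · exact h c hc
    · rw [List.mem_singleton.1 hc]
      exact ho_mt hg (ho_nw hg hs h0 (hd _) _ _) (hd _)

theorem no_cfg (hg : Cfg E g) (hs : Sig E s) (hf : ∀ i < 16, s (g i) (g i) (g i) (g i) = g i) :
    False := by
  have hi : ∀ c ∈ ini, Ho s g c := by
    intro c hc
    obtain ⟨i, hi, rfl⟩ := List.mem_map.1 hc
    have := List.mem_range.1 hi
    exact ⟨i, by simp, by omega, hf i this⟩
  have h0 : Ho s g d0 := ⟨0, by simp [d0], by omega, hf 0 (by omega)⟩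
  obtain ⟨c, hc, h1, h2⟩ := k0
  obtain ⟨v, hv, hv2, he⟩ := ho_run hg hs h0 _ _ hi c hc
  rw [h1] at he
  have key : ∀ c ∈ ini ++ [((17, 6, 17, 17), [v])], Ho s g c := by
    intro c hc
    rcases List.mem_append.1 hc with hc | hc
    · exact hi c hc
    · rw [List.mem_singleton.1 hc]; exact ⟨v, by simp, hv2, he⟩
  rcases h2 v hv with rfl | rfl
  · obtain ⟨c, hc, h⟩ := k6
    obtain ⟨w, hw, -⟩ := ho_run hg hs h0 _ _ key c hc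
    simp [h] at hw
  · obtain ⟨c, hc, h⟩ := k17
    obtain ⟨w, hw, -⟩ := ho_run hg hs h0 _ _ key c hc
    simp [h] at hw

end Pool.Agent.H.MP_2709b3_lc
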