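import Mathlib

set_option autoImplicit false

namespace Pool.Agent.H.MP_2709b3_lc

open Finset

variable {V : Type*} [Fintype V] [DecidableEq V]

abbrev PF (V : Type*) := V → V × Bool

def IsFo (R U : Finset V) (f : PF V) : Prop :=
  (∀ v, v ∉ U → f v = (v, false)) ∧ (∀ v ∈ U, (f v).1 ∈ R ∨ (f v).1 ∈ U) ∧
    ∃ d : V → ℕ, ∀ v ∈ U, d (f v).1 < d v

open Classical in
noncomputable def Fo (R U : Finset V) : Finset (PF V) := univ.filter (IsFo R U)

lemma mem_fo {R U : Finset V} {f : PF V} : f ∈ Fo R U ↔ IsFo R U f := by simp [Fo]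

def As (R C : Finset V) : Finset (PF V) :=
  Fintype.piFinset (fun v => if v ∈ C then R ×ˢ univ else {(v, false)})

lemma mem_as {R C : Finset V} {a : PF V} :
    a ∈ As R C ↔ (∀ v ∈ C, (a v).1 ∈ R) ∧ ∀ v, v ∉ C → a v = (v, false) := by
  simp only [As, Fintype.mem_piFinset]
  constructor
  · intro h
    refine ⟨fun v hv => ?_, fun v hv => ?_⟩
    · have := h v; rw [if_pos hv] at this; exact (mem_product.1 this).1
    · have := h v; rw [if_neg hv] at this; exact mem_singleton.1 this
  · rintro ⟨h1, h2⟩ v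
    split_ifs with hv
    · exact mem_product.2 ⟨h1 v hv, mem_univ _⟩
    · exact mem_singleton.2 (h2 v hv)

def glue (C : Finset V) (a g : PF V) : PF V := fun v => if v ∈ C then a v else g v

def res (C : Finset V) (f : PF V) : PF V := fun v => if v ∈ C then f v else (v, false)

lemma sum_fo {R U : Finset V} (hd : Disjoint R U) (W : PF V → ℝ) :
    ∑ f ∈ Fo R U, W f =
      ∑ C ∈ U.powerset, ∑ a ∈ As R C, ∑ g ∈ Fo C (U \ C), W (glue C a g) := by
  have hd' : ∀ v ∈ U, v ∉ R := fun v hv h => disjoint_left.1 hd h hv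
  rw [← sum_fiberwise_of_maps_to (s := Fo R U) (t := U.powerset)
    (g := fun f => U.filter (fun v => (f v).1 ∈ R)) (fun f _ => mem_powerset.2 (filter_subset _ _))]
  refine sum_congr rfl fun C hC => ?_
  have hC := mem_powerset.1 hC
  rw [← sum_product']
  refine sum_nbij' (fun f => (res C f, res (U \ C) f)) (fun p => glue C p.1 p.2) ?_ ?_ ?_ ?_ ?_
  · intro f hf
    obtain ⟨hf, hc⟩ := mem_filter.1 hf
    obtain ⟨h1, h2, d, h3⟩ := mem_fo.1 hf
    have hm : ∀ v, v ∈ C ↔ v ∈ U ∧ (f v).1 ∈ R := fun v => by rw [← hc, mem_filter]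
    refine mem_product.2 ⟨mem_as.2 ⟨fun v hv => ?_, fun v hv => ?_⟩, mem_fo.2 ⟨fun v hv => ?_,
      fun v hv => ?_, d, fun v hv => ?_⟩⟩
    · simp only [res, if_pos hv]; exact ((hm v).1 hv).2
    · simp only [res, if_neg hv]
    · simp only [res, if_neg hv]
    · simp only [res, if_pos hv]
      obtain ⟨h4, h5⟩ := mem_sdiff.1 hv
      rcases h2 v h4 with h | h
      · exact absurd ((hm v).2 ⟨h4, h⟩) h5
      · by_cases h6 : (f v).1 ∈ C
        · exact Or.inl h6
        · exact Or.inr (mem_sdiff.2 ⟨h, h6⟩)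
    · simp only [res, if_pos hv]; exact h3 v (mem_sdiff.1 hv).1
  · rintro ⟨a, g⟩ hp
    obtain ⟨ha, hg⟩ := mem_product.1 hp
    obtain ⟨a1, a2⟩ := mem_as.1 ha
    obtain ⟨h1, h2, d, h3⟩ := mem_fo.1 hg
    have hU : ∀ v ∈ U, v ∉ C → (g v).1 ∈ U := fun v hv hc => by
      rcases h2 v (mem_sdiff.2 ⟨hv, hc⟩) with h | h
      · exact hC h
      · exact (mem_sdiff.1 h).1
    refine mem_filter.2 ⟨mem_fo.2 ⟨fun v hv => ?_, fun v hv => ?_,
      fun v => if v ∈ U then d v + 1 else 0, fun v hv => ?_⟩, ?_⟩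
    · simp only [glue, if_neg (fun h => hv (hC h))]
      exact h1 v fun h => hv (mem_sdiff.1 h).1
    · simp only [glue]
      split_ifs with hc
      · exact Or.inl (a1 v hc)
      · exact Or.inr (hU v hv hc)
    · simp only [glue, if_pos hv]
      by_cases hc : v ∈ C
      · simp only [if_pos hc]
        rw [if_neg (fun h => hd' _ h (a1 v hc))]; omega
      · simp only [if_neg hc]
        rw [if_pos (hU v hv hc)]
        exact Nat.succ_lt_succ (h3 v (mem_sdiff.2 ⟨hv, hc⟩))
    · ext v
      simp only [mem_filter, glue]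
      constructor
      · rintro ⟨hv, h⟩
        by_contra hc
        rw [if_neg hc] at h
        exact hd' _ (hU v hv hc) h
      · intro hc
        rw [if_pos hc]; exact ⟨hC hc, a1 v hc⟩
  · intro f hf
    obtain ⟨hf, -⟩ := mem_filter.1 hf
    obtain ⟨h1, -⟩ := mem_fo.1 hf
    funext v
    simp only [glue, res, mem_sdiff]
    by_cases hc : v ∈ C
    · simp [hc]
    · by_cases hv : v ∈ U
      · simp [hc, hv]
      · simp [hc, hv, h1 v hv]
  · rintro ⟨a, g⟩ hp
    obtain ⟨ha, hg⟩ := mem_product.1 hp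
    obtain ⟨a1, a2⟩ := mem_as.1 ha
    obtain ⟨h1, -⟩ := mem_fo.1 hg
    refine Prod.ext (funext fun v => ?_) (funext fun v => ?_)
    · simp only [glue, res]
      split_ifs with hc
      · rfl
      · exact (a2 v hc).symm
    · simp only [glue, res]
      split_ifs with h hc
      · exact absurd hc (mem_sdiff.1 h).2
      · rfl
      · exact (h1 v h).symm
  · intro f hf
    obtain ⟨hf, -⟩ := mem_filter.1 hf
    obtain ⟨h1, -⟩ := mem_fo.1 hf
    congr 1
    funext v
    simp only [glue, res, mem_sdiff]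
    by_cases hc : v ∈ C
    · simp [hc]
    · by_cases hv : v ∈ U
      · simp [hc, hv]
      · simp [hc, hv, h1 v hv]

lemma sum_as (R C : Finset V) (w : V × Bool → ℝ) :
    ∑ a ∈ As R C, ∏ c ∈ C, w (a c) = (∑ r ∈ R, (w (r, true) + w (r, false))) ^ C.card := by
  have h := prod_univ_sum (fun v => if v ∈ C then R ×ˢ univ else {(v, false)})
    (fun v p => if v ∈ C then w p else 1)
  have h2 : ∀ a : PF V, ∏ c ∈ C, w (a c) = ∏ v, if v ∈ C then w (a v) else 1 := fun a => by
    rw [← prod_filter]; congr 1; ext v; simp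
  simp only [h2]
  unfold As
  rw [← h, ← prod_const, ← prod_subset (subset_univ C)]
  · refine prod_congr rfl fun v hv => ?_
    simp only [if_pos hv]
    rw [sum_product]
    simp
  · intro v _ hv
    simp [hv]

lemma fo_empty {U : Finset V} (h : U.Nonempty) : Fo (∅ : Finset V) U = ∅ := by
  refine eq_empty_of_forall_notMem fun f hf => ?_
  obtain ⟨-, h2, d, h3⟩ := mem_fo.1 hf
  obtain ⟨v, hv, hm⟩ := exists_min_image U d h
  rcases h2 v hv with h | h
  · simp at h
  · have := hm _ h; have := h3 v hv; omega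

lemma fo_nil (R : Finset V) : Fo R ∅ = {fun v => (v, false)} := by
  ext f
  simp only [mem_fo, IsFo, mem_singleton]
  constructor
  · intro h; funext v; exact h.1 v (by simp)
  · rintro rfl; simp

noncomputable def ph (j m : ℕ) : ℝ := if m = 0 then 1 else j * ((m : ℝ) + j) ^ (m - 1) * 2 ^ m

lemma ph_nonneg (j m : ℕ) : 0 ≤ ph j m := by unfold ph; split_ifs <;> positivity

lemma ph_rec (j m : ℕ) :
    ph j m = ∑ i ∈ range (m + 1), (m.choose i : ℝ) * (2 * j) ^ i * ph i (m - i) := by
  rcases m with _ | m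
  · simp [ph]
  have hm : ((m : ℝ) + 1) ≠ 0 := by positivity
  apply mul_left_cancel₀ hm
  have h1 : ∀ i ∈ range (m + 1 + 1), ((m : ℝ) + 1) * (((m + 1).choose i : ℝ) * (2 * j) ^ i *
      ph i (m + 1 - i)) = ((m + 1).choose i : ℝ) * i * j ^ i * ((m : ℝ) + 1) ^ (m + 1 - i) *
        2 ^ (m + 1) := by
    intro i hi
    have hi := mem_range.1 hi
    unfold ph
    split_ifs with h
    · obtain rfl : i = m + 1 := by omega
      simp only [Nat.choose_self, Nat.sub_self]; push_cast; ring
    · obtain ⟨k, rfl⟩ : ∃ k, m = i + k := ⟨m - i, by omega⟩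
      rw [show i + k + 1 - i = k + 1 by omega, Nat.add_sub_cancel]
      push_cast; ring
  rw [mul_sum, sum_congr rfl h1, sum_range_succ']
  have h2 : ∀ i ∈ range (m + 1), ((m + 1).choose (i + 1) : ℝ) * ((i + 1 : ℕ) : ℝ) * j ^ (i + 1) *
      ((m : ℝ) + 1) ^ (m + 1 - (i + 1)) * 2 ^ (m + 1) = ((m : ℝ) + 1) * j * 2 ^ (m + 1) *
        (j ^ i * ((m : ℝ) + 1) ^ (m - i) * m.choose i) := by
    intro i _
    have : ((m + 1).choose (i + 1) : ℝ) * ((i + 1 : ℕ) : ℝ) = ((m : ℝ) + 1) * m.choose i := by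
      exact_mod_cast (Nat.add_one_mul_choose_eq m i).symm
    rw [this, Nat.add_sub_add_right]; ring
  rw [sum_congr rfl h2, ← mul_sum, ← add_pow]
  simp only [ph, Nat.add_one_ne_zero, if_false, Nat.add_sub_cancel]
  push_cast; ring

lemma card_fo (m : ℕ) : ∀ R U : Finset V, Disjoint R U → U.card = m →
    ((Fo R U).card : ℝ) = ph R.card m := by
  induction m using Nat.strong_induction_on with
  | _ m ih =>
  intro R U hd hm
  rcases U.eq_empty_or_nonempty with rfl | hU
  · rw [fo_nil, ← hm]; simp [ph]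
  have h := sum_fo hd (fun _ => 1)
  simp only [sum_const, nsmul_eq_mul, mul_one] at h
  rw [h, ph_rec]
  have h2 : ∀ C ∈ U.powerset, ((As R C).card : ℝ) * (Fo C (U \ C)).card =
      (fun i => (2 * R.card) ^ i * ph i (m - i)) C.card := by
    intro C hC
    have hC := mem_powerset.1 hC
    have h3 := sum_as R C (fun _ => 1)
    simp only [prod_const_one, sum_const, nsmul_eq_mul, mul_one] at h3
    rw [h3]
    have h4 : (U \ C).card = m - C.card := by rw [card_sdiff_of_subset hC, hm]
    congr 1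
    · ring
    rcases C.eq_empty_or_nonempty with rfl | hne
    · rw [sdiff_empty, fo_empty hU]
      have := hU.card_pos
      simp only [card_empty, ph, Nat.sub_zero]
      rw [if_neg (by omega)]; simp
    · have := hne.card_pos
      have := card_le_card hC
      exact ih _ (by omega) _ _ disjoint_sdiff h4
  rw [sum_congr rfl h2,
    sum_powerset_apply_card (fun i => (2 * (R.card : ℝ)) ^ i * ph i (m - i)), hm]
  refine sum_congr rfl fun i _ => ?_
  simp only [nsmul_eq_mul]; ring

noncomputable def z0 : ℝ := 1 / (2 * Real.exp 1)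

lemma z0_pos : 0 < z0 := by unfold z0; positivity

lemma ph_sum (M : ℕ) : ∀ j : ℕ, ∑ m ∈ range M, ph j m / m.factorial * z0 ^ m ≤ Real.exp j := by
  induction M using Nat.strong_induction_on with
  | _ M ih =>
  intro j
  have hz := z0_pos
  have h1 : ∀ m ∈ range M, ph j m / m.factorial * z0 ^ m = ∑ i ∈ range (m + 1),
      (fun i k => (2 * j * z0) ^ i / i.factorial * (ph i k / k.factorial * z0 ^ k)) i (m - i) := by
    intro m _
    rw [ph_rec, sum_div, sum_mul]
    refine sum_congr rfl fun i hi => ?_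
    have hi : i ≤ m := by have := mem_range.1 hi; omega
    rw [Nat.cast_choose ℝ hi]
    obtain ⟨k, rfl⟩ := Nat.exists_eq_add_of_le hi
    simp only [Nat.add_sub_cancel_left]
    field_simp
    ring
  rw [sum_congr rfl h1, sum_range_diag_flip M
    (fun i k => (2 * j * z0) ^ i / i.factorial * (ph i k / k.factorial * z0 ^ k))]
  refine le_trans (sum_le_sum fun i hi => ?_) (Real.sum_le_exp_of_nonneg (Nat.cast_nonneg j) M)
  rw [← mul_sum]
  have h2 : ∑ k ∈ range (M - i), ph i k / k.factorial * z0 ^ k ≤ Real.exp i := by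
    rcases Nat.eq_zero_or_pos i with rfl | h
    · rcases M with _ | M
      · simp
      · rw [Nat.sub_zero, sum_range_succ', sum_eq_zero]
        · simp [ph]
        · intro k _; simp [ph]
    · exact ih _ (by have := mem_range.1 hi; omega) i
  refine (mul_le_mul_of_nonneg_left h2 (by positivity)).trans (le_of_eq ?_)
  rw [← Real.exp_one_pow, div_mul_eq_mul_div, ← mul_pow]
  congr 2
  unfold z0; field_simp

end Pool.Agent.H.MP_2709b3_lc
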