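import Pool.Agent.H.MP_2709b3_lc.B

set_option autoImplicit false
set_option linter.unusedSectionVars false
set_option linter.unusedVariables false

namespace Pool.Agent.H.MP_2709b3_lc

open Finset Classical

variable {V : Type*} [Fintype V] [DecidableEq V]

def sgn (b : Bool) : ℤ := if b then -1 else 1

def Lv (L : ℕ) (R U : Finset V) (x : V → ℤ) (f : PF V) : Prop :=
  ∃ l : V → ℤ, (∀ r ∈ R, l r = x r) ∧
    ∀ v ∈ U, 0 ≤ l v ∧ l v ≤ L ∧ l v = l (f v).1 + sgn (f v).2

lemma lv_bound (L : ℕ) (u : ℤ → ℝ) (z : ℝ) (hz : 0 < z)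
    (hu0 : ∀ x : ℤ, -1 ≤ x → x ≤ L + 1 → 0 ≤ u x)
    (hu : ∀ x : ℤ, 0 ≤ x → x ≤ L → z * Real.exp (u (x + -1) + u (x + 1)) ≤ u x) (m : ℕ) :
    ∀ (R U : Finset V) (x : V → ℤ), Disjoint R U → U.card = m → (∀ r ∈ R, 0 ≤ x r ∧ x r ≤ L) →
      (((Fo R U).filter (Lv L R U x)).card : ℝ) ≤ m.factorial / z ^ m * ∏ r ∈ R, u (x r) / z := by
  induction m using Nat.strong_induction_on with
  | _ m ih =>
  intro R U x hd hm hx
  rw [← sum_boole, sum_fo hd]
  set S := ∑ r ∈ R, (u (x r + -1) + u (x r + 1)) with hS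
  have hS0 : 0 ≤ S := sum_nonneg fun r hr => by
    obtain ⟨h1, h2⟩ := hx r hr
    exact add_nonneg (hu0 _ (by omega) (by omega)) (hu0 _ (by omega) (by omega))
  have h1 : ∀ C ∈ U.powerset, ∑ a ∈ As R C, ∑ g ∈ Fo C (U \ C),
      (if Lv L R U x (glue C a g) then (1 : ℝ) else 0) ≤
      (fun i => (m - i).factorial / z ^ (m - i) * (S / z) ^ i) C.card := by
    intro C hC
    have hC := mem_powerset.1 hC
    have h3 := sum_as R C (fun p => u (x p.1 + sgn p.2) / z)
    have h4 : ∑ r ∈ R, (u (x r + sgn true) / z + u (x r + sgn false) / z) = S / z := by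
      rw [hS, sum_div]; refine sum_congr rfl fun r _ => ?_
      simp only [sgn, if_true, Bool.false_eq_true, if_false]; ring
    beta_reduce
    rw [← h4, ← h3, mul_sum]
    refine sum_le_sum fun a ha => ?_
    obtain ⟨a1, -⟩ := mem_as.1 ha
    have h5 : (U \ C).card = m - C.card := by rw [card_sdiff_of_subset hC, hm]
    rw [sum_boole]
    rcases C.eq_empty_or_nonempty with rfl | hne
    · rcases U.eq_empty_or_nonempty with rfl | hU
      · simp only [card_empty] at hm
        subst hm
        rw [sdiff_empty, fo_nil]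
        simp only [card_empty, prod_empty, Nat.sub_zero, Nat.factorial_zero, pow_zero,
          Nat.cast_one, div_one, mul_one]
        exact_mod_cast (card_filter_le _ _).trans (by simp)
      · rw [sdiff_empty, fo_empty hU]
        simp only [filter_empty, card_empty, Nat.cast_zero, prod_empty]
        positivity
    by_cases hy : ∀ c ∈ C, 0 ≤ x (a c).1 + sgn (a c).2 ∧ x (a c).1 + sgn (a c).2 ≤ L
    · have := hne.card_pos
      have := card_le_card hC
      refine le_trans ?_ (ih _ (by omega) C (U \ C) (fun c => x (a c).1 + sgn (a c).2)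
        disjoint_sdiff h5 hy)
      refine Nat.cast_le.2 (card_le_card fun g hg => ?_)
      obtain ⟨hg, l, l1, l2⟩ := mem_filter.1 hg
      refine mem_filter.2 ⟨hg, l, fun c hc => ?_, fun v hv => ?_⟩
      · have := (l2 c (hC hc)).2.2
        simp only [glue, if_pos hc] at this
        rw [this, l1 _ (a1 c hc)]
      · have := l2 v (mem_sdiff.1 hv).1
        simp only [glue, if_neg (mem_sdiff.1 hv).2] at this
        exact this
    · rw [filter_eq_empty_iff.2]
      · simp only [card_empty, Nat.cast_zero]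
        refine mul_nonneg (by positivity) (prod_nonneg fun c hc => div_nonneg ?_ hz.le)
        obtain ⟨h1, h2⟩ := hx _ (a1 c hc)
        refine hu0 _ ?_ ?_ <;> unfold sgn <;> split_ifs <;> omega
      · rintro g - ⟨l, l1, l2⟩
        refine hy fun c hc => ?_
        have := l2 c (hC hc)
        simp only [glue, if_pos hc] at this
        rw [l1 _ (a1 c hc)] at this
        omega
  refine (sum_le_sum h1).trans ?_
  rw [sum_powerset_apply_card (fun i => ((m - i).factorial : ℝ) / z ^ (m - i) * (S / z) ^ i), hm]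
  have h2 : ∀ i ∈ range (m + 1), m.choose i • (((m - i).factorial : ℝ) / z ^ (m - i) *
      (S / z) ^ i) = m.factorial / z ^ m * (S ^ i / i.factorial) := by
    intro i hi
    have hi : i ≤ m := by have := mem_range.1 hi; omega
    rw [nsmul_eq_mul, Nat.cast_choose ℝ hi]
    obtain ⟨k, rfl⟩ := Nat.exists_eq_add_of_le hi
    simp only [Nat.add_sub_cancel_left, div_pow, pow_add]
    field_simp
  rw [sum_congr rfl h2, ← mul_sum]
  refine mul_le_mul_of_nonneg_left ((Real.sum_le_exp_of_nonneg hS0 _).trans ?_) (by positivity)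
  rw [hS, Real.exp_sum]
  refine prod_le_prod (fun _ _ => (Real.exp_pos _).le) fun r hr => ?_
  rw [le_div_iff₀' hz]
  exact hu _ (hx r hr).1 (hx r hr).2

lemma split_ex {R1 R2 U : Finset V} (h1 : Disjoint R1 U) (h2 : Disjoint R2 U) {f : PF V}
    (hf : IsFo (R1 ∪ R2) U f) : ∃ U1 ⊆ U, (∀ v ∈ U1, (f v).1 ∈ R1 ∨ (f v).1 ∈ U1) ∧
      ∀ v ∈ U \ U1, (f v).1 ∈ R2 ∨ (f v).1 ∈ U \ U1 := by
  obtain ⟨f1, f2, -⟩ := hf
  refine ⟨U.filter (fun v => ∃ k, (fun v => (f v).1)^[k] v ∈ R1), filter_subset _ _, ?_, ?_⟩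
  · intro v hv
    obtain ⟨hv, k, hk⟩ := mem_filter.1 hv
    rcases k with _ | k
    · exact absurd hv (disjoint_left.1 h1 hk)
    rw [Function.iterate_succ_apply] at hk
    by_cases h : (f v).1 ∈ U
    · exact Or.inr (mem_filter.2 ⟨h, k, hk⟩)
    · left
      rwa [Function.iterate_fixed (by simp only [f1 _ h])] at hk
  · intro v hv
    obtain ⟨hv, hn⟩ := mem_sdiff.1 hv
    have hn' : ∀ k, (fun v => (f v).1)^[k] (f v).1 ∉ R1 := fun k hk =>
      hn (mem_filter.2 ⟨hv, k + 1, by rwa [Function.iterate_succ_apply]⟩)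
    rcases f2 v hv with h | h
    · rcases mem_union.1 h with h | h
      · exact absurd h (hn' 0)
      · exact Or.inl h
    · exact Or.inr (mem_sdiff.2 ⟨h, fun h' => by
        obtain ⟨-, k, hk⟩ := mem_filter.1 h'; exact hn' k hk⟩)

lemma res_fo {R R' U U1 : Finset V} {f : PF V} (hf : IsFo R U f) (h : U1 ⊆ U)
    (h2 : ∀ v ∈ U1, (f v).1 ∈ R' ∨ (f v).1 ∈ U1) : IsFo R' U1 (res U1 f) := by
  obtain ⟨-, -, d, h3⟩ := hf
  refine ⟨fun v hv => ?_, fun v hv => ?_, d, fun v hv => ?_⟩
  · simp only [res, if_neg hv]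
  · simp only [res, if_pos hv]; exact h2 v hv
  · simp only [res, if_pos hv]; exact h3 v (h hv)

lemma split_card {R1 R2 U : Finset V} (h1 : Disjoint R1 U) (h2 : Disjoint R2 U)
    (P : PF V → Prop) (P1 P2 : Finset V → PF V → Prop)
    (hP : ∀ f, ∀ U1 ⊆ U, (∀ v ∈ U1, (f v).1 ∈ R1 ∨ (f v).1 ∈ U1) →
      (∀ v ∈ U \ U1, (f v).1 ∈ R2 ∨ (f v).1 ∈ U \ U1) → P f →
      P1 U1 (res U1 f) ∧ P2 (U \ U1) (res (U \ U1) f)) :
    ((Fo (R1 ∪ R2) U).filter P).card ≤ ∑ U1 ∈ U.powerset,
      ((Fo R1 U1).filter (P1 U1)).card * ((Fo R2 (U \ U1)).filter (P2 (U \ U1))).card := by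
  refine le_trans (card_le_card (t := U.powerset.biUnion fun U1 =>
    (((Fo R1 U1).filter (P1 U1)) ×ˢ ((Fo R2 (U \ U1)).filter (P2 (U \ U1)))).image
      (fun p => glue U1 p.1 p.2)) fun f hf => ?_) (card_biUnion_le.trans
        (sum_le_sum fun U1 _ => card_image_le.trans (card_product _ _).le))
  obtain ⟨hf, hp⟩ := mem_filter.1 hf
  have hf := mem_fo.1 hf
  obtain ⟨U1, u1, u2, u3⟩ := split_ex h1 h2 hf
  obtain ⟨p1, p2⟩ := hP f U1 u1 u2 u3 hp
  refine mem_biUnion.2 ⟨U1, mem_powerset.2 u1, mem_image.2 ⟨(res U1 f, res (U \ U1) f),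
    mem_product.2 ⟨mem_filter.2 ⟨mem_fo.2 (res_fo hf u1 u2), p1⟩,
      mem_filter.2 ⟨mem_fo.2 (res_fo hf sdiff_subset u3), p2⟩⟩, ?_⟩⟩
  funext v
  simp only [glue, res, mem_sdiff]
  by_cases hc : v ∈ U1
  · simp [hc]
  · by_cases hv : v ∈ U
    · simp [hc, hv]
    · simp [hc, hv, hf.1 v hv]

def hp (y h : ℕ → V) (k : ℕ) : V × Bool :=
  (if k = 0 then y 9 else h (k - 1), decide (k ≠ 1 ∧ k ≠ 2))

def Good (y : ℕ → V) (U : Finset V) (f : PF V) : Prop :=
  ∃ h : ℕ → V, (∀ k < 6, h k ∈ U) ∧ (∀ k < 6, ∀ l < 6, h k = h l → k = l) ∧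
    (∀ k < 6, f (h k) = hp y h k) ∧
    ∀ v ∈ U, ((∃ k < 17, (f v).1 = y k) ∨ ∃ k < 6, (f v).1 = h k) → ∃ k < 6, v = h k

lemma good_res {y : ℕ → V} {U U1 : Finset V} {f : PF V} (h : U1 ⊆ U)
    (h2 : ∀ v ∈ U, v ∉ U1 → (f v).1 ∉ U1 ∧ ∀ k < 17, (f v).1 ≠ y k)
    (hg : Good y U1 (res U1 f)) : Good y U f := by
  obtain ⟨g, g1, g2, g3, g4⟩ := hg
  refine ⟨g, fun k hk => h (g1 k hk), g2, fun k hk => ?_, fun v hv hh => ?_⟩
  · have := g3 k hk
    simpa only [res, if_pos (g1 k hk)] using this
  · by_cases hc : v ∈ U1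
    · exact g4 v hc (by simpa only [res, if_pos hc] using hh)
    · obtain ⟨a, b⟩ := h2 v hv hc
      rcases hh with ⟨k, hk, e⟩ | ⟨k, hk, e⟩
      · exact absurd e (b k hk)
      · exact absurd (e ▸ g1 k hk) a

lemma good_ex {y : ℕ → V} {R U : Finset V} (hd : Disjoint R U) (hy : y 9 ∈ R) (hU : U.card = 6) :
    ∃ f ∈ Fo R U, Good y U f := by
  obtain ⟨e⟩ : Nonempty (Fin 6 ≃ U) := ⟨(U.equivFinOfCardEq hU).symm⟩
  let h : ℕ → V := fun k => if hk : k < 6 then e ⟨k, hk⟩ else y 9
  let ix : V → ℕ := fun v => if hv : v ∈ U then (e.symm ⟨v, hv⟩ : ℕ) else 0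
  have a1 : ∀ k < 6, h k ∈ U := fun k hk => by simp only [h, dif_pos hk]; exact (e _).2
  have a2 : ∀ k < 6, ix (h k) = k := fun k hk => by
    simp only [ix, dif_pos (a1 k hk)]
    simp only [h, dif_pos hk, Subtype.coe_eta, Equiv.symm_apply_apply]
  have a3 : ∀ v ∈ U, ix v < 6 ∧ h (ix v) = v := fun v hv => by
    simp only [ix, dif_pos hv, h, Fin.is_lt, dif_pos, Fin.eta, Equiv.apply_symm_apply, and_self]
  refine ⟨fun v => if v ∈ U then hp y h (ix v) else (v, false), mem_fo.2 ⟨fun v hv => ?_,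
    fun v hv => ?_, fun v => if v ∈ U then ix v + 1 else 0, fun v hv => ?_⟩, h, a1,
    fun k hk l hl e => ?_, fun k hk => ?_, fun v hv _ => ⟨_, (a3 v hv).1, (a3 v hv).2.symm⟩⟩
  · simp only [if_neg hv]
  · simp only [if_pos hv, hp]
    split_ifs with h0
    · exact Or.inl hy
    · exact Or.inr (a1 _ (by have := (a3 v hv).1; omega))
  · simp only [if_pos hv, hp]
    by_cases h0 : ix v = 0
    · rw [if_pos h0, if_neg (disjoint_left.1 hd hy)]; omega
    · have h5 : ix v - 1 < 6 := by have := (a3 v hv).1; omega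
      rw [if_neg h0, if_pos (a1 _ h5), a2 _ h5]; omega
  · rw [← a2 k hk, e, a2 l hl]
  · simp only [if_pos (a1 k hk), a2 k hk]

noncomputable def cc : ℝ := z0 ^ 6 / 720

def NG (x : ℕ → V) (act : ℕ → Prop) (J : ℕ) (U : Finset V) (f : PF V) : Prop :=
  ∀ i < J, act i → ¬ Good (fun k => x (17 * i + k)) U f

def G1 (p : Prop) (y : ℕ → V) (U : Finset V) (f : PF V) : Prop := p → ¬ Good y U f

lemma ph_ge : (1 : ℝ) ≤ ph 17 6 := by norm_num [ph]

lemma blk_sum (p : Prop) (M : ℕ) : ∑ m ∈ range M, (ph 17 m - if p ∧ m = 6 then 1 else 0) /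
    m.factorial * z0 ^ m ≤ Real.exp 17 - if p then cc else 0 := by
  have hz := z0_pos
  have h0 : ∀ m, 0 ≤ (ph 17 m - if p ∧ m = 6 then 1 else 0) / m.factorial * z0 ^ m := fun m => by
    refine mul_nonneg (div_nonneg ?_ (by positivity)) (by positivity)
    split_ifs with h
    · rw [h.2]; linarith [ph_ge]
    · simpa using ph_nonneg _ _
  refine (sum_le_sum_of_subset_of_nonneg (t := range (M + 7)) (range_subset_range.2 (by omega))
    fun m _ _ => h0 m).trans ?_
  have := ph_sum (M + 7) 17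
  simp only [sub_div, sub_mul, sum_sub_distrib]
  refine sub_le_sub (by exact_mod_cast this) (le_of_eq ?_)
  by_cases hp : p
  · rw [sum_eq_single 6]
    · simp [hp, cc, Nat.factorial]; ring
    · intro b _ hb; simp [hb]
    · intro h; exact absurd (mem_range.2 (by omega)) h
  · simp [hp]

lemma cc_le : cc ≤ Real.exp 17 := by
  have := blk_sum True 0
  simpa using this

lemma blk (x : ℕ → V) (act : ℕ → Prop) (R0 : Finset V) (J : ℕ)
    (hinj : ∀ k < 17 * J, ∀ l < 17 * J, x k = x l → k = l) (hR0 : ∀ k < 17 * J, x k ∉ R0) :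
    ∃ a : ℕ → ℝ, (∀ m, 0 ≤ a m) ∧
      (∀ M, ∑ m ∈ range M, a m * z0 ^ m ≤
        Real.exp R0.card * ∏ i ∈ range J, (Real.exp 17 - if act i then cc else 0)) ∧
      ∀ U, Disjoint ((range (17 * J)).image x ∪ R0) U →
        (((Fo ((range (17 * J)).image x ∪ R0) U).filter (NG x act J U)).card : ℝ) ≤
          U.card.factorial * a U.card := by
  have hz := z0_pos
  induction J with
  | zero =>
    refine ⟨fun m => ph R0.card m / m.factorial,
      fun m => div_nonneg (ph_nonneg _ _) (by positivity), fun M => ?_, fun U hU => ?_⟩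
    · simpa using ph_sum M R0.card
    · simp only [mul_zero, range_zero, image_empty, empty_union] at hU ⊢
      rw [mul_div_cancel₀ _ (by positivity), ← card_fo _ _ _ hU rfl]
      exact_mod_cast card_filter_le _ _
  | succ J ih =>
    obtain ⟨a, a0, a1, a2⟩ := ih (fun k hk l hl => hinj k (by omega) l (by omega))
      (fun k hk => hR0 k (by omega))
    let b : ℕ → ℝ := fun m => (ph 17 m - if act J ∧ m = 6 then 1 else 0) / m.factorial
    have b0 : ∀ m, 0 ≤ b m := fun m => by
      refine div_nonneg ?_ (by positivity)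
      split_ifs with h
      · rw [h.2]; linarith [ph_ge]
      · simpa using ph_nonneg _ _
    refine ⟨fun m => ∑ i ∈ range (m + 1), b i * a (m - i),
      fun m => sum_nonneg fun i _ => mul_nonneg (b0 _) (a0 _), fun M => ?_, fun U hU => ?_⟩
    · have h1 : ∀ m ∈ range M, (∑ i ∈ range (m + 1), b i * a (m - i)) * z0 ^ m =
          ∑ i ∈ range (m + 1), (fun i k => b i * z0 ^ i * (a k * z0 ^ k)) i (m - i) := by
        intro m _
        rw [sum_mul]
        refine sum_congr rfl fun i hi => ?_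
        have hi : i ≤ m := by have := mem_range.1 hi; omega
        obtain ⟨k, rfl⟩ := Nat.exists_eq_add_of_le hi
        simp only [Nat.add_sub_cancel_left]
        ring
      rw [sum_congr rfl h1, sum_range_diag_flip M (fun i k => b i * z0 ^ i * (a k * z0 ^ k)),
        prod_range_succ, ← mul_assoc, mul_comm]
      refine le_trans (sum_le_sum fun i _ => ?_) (le_trans (sum_mul _ _ _).ge
        (mul_le_mul_of_nonneg_right (blk_sum (act J) M) ((sum_nonneg (by simp)).trans (a1 0))))
      rw [← mul_sum]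
      exact mul_le_mul_of_nonneg_left (a1 _) (mul_nonneg (b0 _) (by positivity))
    · set R1 := (range 17).image (fun k => x (17 * J + k)) with hR1
      set R2 := (range (17 * J)).image x ∪ R0 with hR2
      have hR : (range (17 * (J + 1))).image x ∪ R0 = R1 ∪ R2 := by
        rw [hR1, hR2, ← union_assoc, union_comm (image _ _) (image _ _), mul_add, mul_one,
          range_add, image_union, map_eq_image, image_image]
        rfl
      rw [hR] at hU ⊢
      obtain ⟨d1, d2⟩ := disjoint_union_left.1 hU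
      have m1 : ∀ k < 17, x (17 * J + k) ∈ R1 := fun k hk => mem_image.2 ⟨k, mem_range.2 hk, rfl⟩
      have m2 : ∀ k < 17 * J, x k ∈ R2 := fun k hk =>
        mem_union_left _ (mem_image.2 ⟨k, mem_range.2 hk, rfl⟩)
      have d3 : ∀ v ∈ R1, v ∉ R2 := by
        intro v h1 h2
        obtain ⟨k, hk, rfl⟩ := mem_image.1 h1
        have hk := mem_range.1 hk
        rcases mem_union.1 h2 with h | h
        · obtain ⟨l, hl, e⟩ := mem_image.1 h
          have hl := mem_range.1 hl
          have := hinj _ (by omega) _ (by omega) e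
          omega
        · exact hR0 _ (by omega) h
      have c1 : R1.card = 17 := by
        rw [hR1, card_image_of_injOn, card_range]
        intro k hk l hl e
        have hk := mem_range.1 (mem_coe.1 hk)
        have hl := mem_range.1 (mem_coe.1 hl)
        have := hinj _ (by omega) _ (by omega) e
        omega
      have hs := split_card d1 d2 (NG x act (J + 1) U)
        (G1 (act J) (fun k => x (17 * J + k))) (NG x act J) ?_
      · refine (Nat.cast_le.2 hs).trans ?_
        push_cast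
        have h1 : ∀ U1 ∈ U.powerset, ((((Fo R1 U1).filter
            (G1 (act J) (fun k => x (17 * J + k)) U1)).card : ℝ) *
            ((Fo R2 (U \ U1)).filter (NG x act J (U \ U1))).card) ≤
            (fun i => i.factorial * b i * ((U.card - i).factorial * a (U.card - i))) U1.card := by
          intro U1 h
          have h := mem_powerset.1 h
          have d4 : Disjoint R1 U1 := d1.mono_right h
          refine mul_le_mul ?_ ?_ (Nat.cast_nonneg _) (mul_nonneg (Nat.cast_nonneg _) (b0 _))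
          · simp only [b]
            have e := card_fo _ _ _ d4 rfl
            rw [c1] at e
            rw [mul_div_cancel₀ _ (Nat.cast_ne_zero.2 (Nat.factorial_ne_zero _)), ← e]
            split_ifs with hh
            · obtain ⟨f, f1, f2⟩ := good_ex (y := fun k => x (17 * J + k)) d4 (m1 9 (by omega)) hh.2
              rw [le_sub_iff_add_le]
              have := card_lt_card ((filter_ssubset (p := G1 (act J) (fun k => x (17 * J + k)) U1)).2
                ⟨f, f1, fun h => h hh.1 f2⟩)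
              exact_mod_cast this
            · rw [sub_zero]; exact_mod_cast card_filter_le _ _
          · rw [← card_sdiff_of_subset h]
            exact a2 _ (d2.mono_right sdiff_subset)
        refine (sum_le_sum h1).trans (le_of_eq ?_)
        rw [sum_powerset_apply_card
          (fun i => i.factorial * b i * ((U.card - i).factorial * a (U.card - i))), mul_sum]
        refine sum_congr rfl fun i hi => ?_
        have hi : i ≤ U.card := by have := mem_range.1 hi; omega
        rw [nsmul_eq_mul, Nat.cast_choose ℝ hi]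
        field_simp
      · intro f U1 u1 u2 u3 hN
        refine ⟨fun ha hg => hN J (by omega) ha (good_res u1 (fun v hv hc => ?_) hg),
          fun i hi ha hg => hN i (by omega) ha (good_res sdiff_subset (fun v hv hc => ?_) hg)⟩
        · rcases u3 v (mem_sdiff.2 ⟨hv, hc⟩) with h | h
          · exact ⟨fun h' => disjoint_left.1 d2 h (u1 h'), fun k hk e => d3 _ (m1 k hk) (e ▸ h)⟩
          · exact ⟨(mem_sdiff.1 h).2, fun k hk e =>
              disjoint_left.1 d1 (m1 k hk) (e ▸ (mem_sdiff.1 h).1)⟩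
        · have hc : v ∈ U1 := by
            by_contra h; exact hc (mem_sdiff.2 ⟨hv, h⟩)
          have m3 : ∀ k < 17, x (17 * i + k) ∈ R2 := fun k hk => m2 _ (by omega)
          rcases u2 v hc with h | h
          · exact ⟨fun h' => disjoint_left.1 d1 h (mem_sdiff.1 h').1,
              fun k hk e => d3 _ h (e ▸ m3 k hk)⟩
          · exact ⟨fun h' => (mem_sdiff.1 h').2 h, fun k hk e =>
              disjoint_left.1 d2 (m3 k hk) (e ▸ u1 h)⟩

end Pool.Agent.H.MP_2709b3_lc
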