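import Pool.Agent.H.MP_2709b3_lc.A
import Pool.Agent.H.MP_2709b3_lc.C

set_option autoImplicit false
set_option linter.unusedSectionVars false
set_option linter.unusedVariables false

namespace Pool.Agent.H.MP_2709b3_lc

open Finset Classical

variable {V : Type*} [Fintype V] [DecidableEq V]

def Ed (f : PF V) (a b : V) : Prop := a ≠ b ∧ (f a = (b, true) ∨ f b = (a, false))

def IsT (E : V → V → Bool) : Prop :=
  (∀ a b, ¬ (E a b = true ∧ E b a = true)) ∧ (SimpleGraph.fromRel (fun a b => E a b = true)).IsTree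

def Rt (r : V) (f : PF V) : Prop := IsFo {r} (univ.erase r) f

lemma Rt.root {r : V} {f : PF V} (h : Rt r f) : f r = (r, false) := h.1 r (by simp)

lemma Rt.dd {r : V} {f : PF V} (h : Rt r f) : ∃ d : V → ℕ, ∀ v, v ≠ r → d (f v).1 < d v := by
  obtain ⟨d, hd⟩ := h.2.2
  exact ⟨d, fun v hv => hd v (by simpa using hv)⟩

lemma code {E : V → V → Bool} (hE : IsT E) (r : V) :
    ∃ f, Rt r f ∧ ∀ a b, E a b = true ↔ Ed f a b := by
  obtain ⟨h1, hT⟩ := hE
  set G := SimpleGraph.fromRel (fun a b => E a b = true) with hG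
  have hp : ∀ v, ∃ w, v ≠ r → G.Adj v w ∧ G.dist w r < G.dist v r := by
    intro v
    obtain ⟨p, hp⟩ := hT.connected.exists_walk_length_eq_dist v r
    cases p with
    | nil => exact ⟨r, fun h => absurd rfl h⟩
    | cons h q =>
      refine ⟨_, fun _ => ⟨h, ?_⟩⟩
      have := SimpleGraph.dist_le q
      simp only [SimpleGraph.Walk.length_cons] at hp
      omega
  choose p hp using hp
  have hs : Set.SurjOn (fun v => s(v, p v)) (univ.erase r : Finset V) G.edgeFinset := by
    refine surjOn_of_injOn_of_card_le _ (fun v hv => ?_) (fun v hv w hw e => ?_) ?_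
    · simpa using (hp v (by simpa using hv)).1
    · have hv := (hp v (by simpa using hv)).2
      have hw := (hp w (by simpa using hw)).2
      rcases Sym2.eq_iff.1 e with h | h
      · exact h.1
      · rw [h.2] at hv; rw [← h.1] at hw; omega
    · have := hT.card_edgeFinset
      rw [card_erase_of_mem (mem_univ _), card_univ]; omega
  refine ⟨fun v => if v = r then (v, false) else (p v, E v (p v)), ⟨fun v hv => ?_, fun v hv => ?_,
    fun v => G.dist v r, fun v hv => ?_⟩, fun a b => ⟨fun h => ?_, fun h => ?_⟩⟩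
  · have : v = r := by simpa using hv
    simp only [if_pos this]
  · simp only [mem_singleton, mem_erase, mem_univ, and_true]; exact Classical.em _
  · have : v ≠ r := by simpa using hv
    simp only [if_neg this]; exact (hp v this).2
  · have hab : a ≠ b := by rintro rfl; exact h1 _ _ ⟨h, h⟩
    have : G.Adj a b := by rw [hG, SimpleGraph.fromRel_adj]; exact ⟨hab, Or.inl h⟩
    obtain ⟨v, hv, e⟩ := hs (by simpa using this : s(a, b) ∈ (G.edgeFinset : Set (Sym2 V)))
    have hv : v ≠ r := by simpa using hv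
    refine ⟨hab, ?_⟩
    rcases Sym2.eq_iff.1 e with ⟨rfl, rfl⟩ | ⟨rfl, rfl⟩
    · left; simp only [if_neg hv, h]
    · right; simp only [if_neg hv]
      have := h1 v (p v)
      simpa [h] using this
  · obtain ⟨hab, h | h⟩ := h
    · by_cases ha : a = r
      · simp [ha] at h
      · simp only [if_neg ha, Prod.mk.injEq] at h
        rw [← h.1]; exact h.2
    · by_cases hb : b = r
      · simp only [if_pos hb, Prod.mk.injEq] at h
        exact absurd h.1.symm hab
      · simp only [if_neg hb, Prod.mk.injEq] at h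
        have := (hp b hb).1
        rw [hG, SimpleGraph.fromRel_adj, h.1] at this
        rcases this.2 with h' | h'
        · rw [← h.1, h.2] at h'; simp at h'
        · exact h'

lemma Rt.ed {r : V} {f : PF V} (h : Rt r f) {v : V} (hv : v ≠ r) :
    Ed f v (f v).1 ∧ (f v).2 = true ∨ Ed f (f v).1 v ∧ (f v).2 = false := by
  obtain ⟨d, hd⟩ := h.dd
  have : (f v).1 ≠ v := fun e => by have := hd v hv; rw [e] at this; omega
  cases hb : (f v).2
  · exact Or.inr ⟨⟨this, Or.inr (Prod.ext rfl hb)⟩, rfl⟩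
  · exact Or.inl ⟨⟨this.symm, Or.inl (Prod.ext rfl hb)⟩, rfl⟩

lemma Rt.ind {r : V} {f : PF V} (h : Rt r f) (P : V → Prop) (h0 : P r)
    (h1 : ∀ a b, Ed f a b → (P a ↔ P b)) (v : V) : P v := by
  obtain ⟨d, hd⟩ := h.dd
  induction hn : d v using Nat.strong_induction_on generalizing v with
  | _ n ih =>
  by_cases hv : v = r
  · rwa [hv]
  have := ih _ (hn ▸ hd v hv) _ rfl
  rcases h.ed hv with h | h
  · exact (h1 _ _ h.1).2 this
  · exact (h1 _ _ h.1).1 this

lemma Rt.par {r : V} {f : PF V} (h : Rt r f) {a b : V} (e : Ed f a b) :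
    (a ≠ r ∧ f a = (b, true)) ∨ (b ≠ r ∧ f b = (a, false)) := by
  obtain ⟨hab, e | e⟩ := e
  · refine Or.inl ⟨?_, e⟩
    rintro rfl; rw [h.root] at e; simp at e
  · refine Or.inr ⟨?_, e⟩
    rintro rfl; rw [h.root] at e; exact hab (Prod.mk.inj e).1.symm

noncomputable def Ef (f : PF V) : V → V → Bool := fun a b => decide (Ed f a b)

lemma decode {r : V} {f : PF V} (h : Rt r f) : IsT (Ef f) := by
  obtain ⟨d, hd⟩ := h.dd
  have hA : ∀ a b, (SimpleGraph.fromRel (fun a b => Ef f a b = true)).Adj a b ↔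
      Ed f a b ∨ Ed f b a := fun a b => by
    simp only [SimpleGraph.fromRel_adj, Ef, decide_eq_true_eq]
    exact ⟨fun h => h.2, fun h => ⟨h.elim (·.1) (·.1.symm), h⟩⟩
  set G := SimpleGraph.fromRel (fun a b => Ef f a b = true)
  have hc : G.Connected := by
    have : ∀ v, G.Reachable r v := h.ind _ (SimpleGraph.Reachable.refl _) fun a b e =>
      ⟨fun h => h.trans ((hA a b).2 (Or.inl e)).reachable,
        fun h => h.trans ((hA b a).2 (Or.inr e)).reachable⟩
    have : Nonempty V := ⟨r⟩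
    exact ⟨fun a b => (‹∀ v, G.Reachable r v› a).symm.trans (‹∀ v, G.Reachable r v› b)⟩
  refine ⟨fun a b hh => ?_, SimpleGraph.isTree_iff_connected_and_card.2 ⟨hc, ?_⟩⟩
  · simp only [Ef, decide_eq_true_eq] at hh
    rcases h.par hh.1 with ⟨a1, a2⟩ | ⟨a1, a2⟩ <;> rcases h.par hh.2 with ⟨b1, b2⟩ | ⟨b1, b2⟩
    · have := hd _ a1; have := hd _ b1; simp only [a2, b2] at *; omega
    · rw [a2] at b2; simp at b2
    · rw [a2] at b2; simp at b2
    · have := hd _ a1; have := hd _ b1; simp only [a2, b2] at *; omega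
  · refine le_antisymm ?_ hc.card_vert_le_card_edgeSet_add_one
    have h1 : G.edgeFinset ⊆ (univ.erase r).image (fun v => s(v, (f v).1)) := by
      intro e he
      induction e using Sym2.ind with
      | _ a b =>
      have he : G.Adj a b := by simpa using he
      rcases (hA a b).1 he with e | e <;> rcases h.par e with ⟨a1, a2⟩ | ⟨a1, a2⟩
      · exact mem_image.2 ⟨a, by simpa using a1, by rw [a2]⟩
      · exact mem_image.2 ⟨b, by simpa using a1, by rw [a2, Sym2.eq_swap]⟩
      · exact mem_image.2 ⟨b, by simpa using a1, by rw [a2, Sym2.eq_swap]⟩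
      · exact mem_image.2 ⟨a, by simpa using a1, by rw [a2]⟩
    have h2 := (card_le_card h1).trans card_image_le
    rw [card_erase_of_mem (mem_univ _), card_univ] at h2
    have : 0 < Fintype.card V := Fintype.card_pos_iff.2 ⟨r⟩
    have h3 : Nat.card G.edgeSet = G.edgeFinset.card := by
      rw [Nat.card_eq_fintype_card, ← SimpleGraph.edgeFinset_card]
    rw [h3, Nat.card_eq_fintype_card]
    omega

lemma ef_inj {r : V} {f g : PF V} (hf : Rt r f) (hg : Rt r g) (e : Ef f = Ef g) : f = g := by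
  have he : ∀ a b, Ed f a b ↔ Ed g a b := fun a b => by
    have := congrFun (congrFun e a) b
    simpa [Ef] using this
  obtain ⟨d, hd⟩ := hg.dd
  obtain ⟨d', hd'⟩ := hf.dd
  funext v
  induction hn : d v using Nat.strong_induction_on generalizing v with
  | _ n ih =>
  by_cases hv : v = r
  · rw [hv, hf.root, hg.root]
  have key : (g v).1 ≠ r → (f (g v).1).1 ≠ v := fun h1 h2 => by
    have h3 := ih _ (hn ▸ hd v hv) _ rfl
    have h4 := hd _ h1
    rw [← h3, h2] at h4
    have := hd v hv; omega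
  rcases hg.ed hv with ⟨h, hb⟩ | ⟨h, hb⟩ <;> rcases hf.par ((he _ _).2 h) with ⟨a1, a2⟩ | ⟨a1, a2⟩
  · rw [a2, ← hb]
  · exact absurd (by rw [a2]) (key a1)
  · exact absurd (by rw [a2]) (key a1)
  · rw [a2, ← hb]

lemma Rt.lev {r : V} {f : PF V} (h : Rt r f) :
    ∃ l : V → ℤ, ∀ v, v ≠ r → l v = l (f v).1 + sgn (f v).2 := by
  obtain ⟨d, hd⟩ := h.dd
  have : ∀ N, ∃ l : V → ℤ, ∀ v, v ≠ r → d v < N → l v = l (f v).1 + sgn (f v).2 := by
    intro N
    induction N with
    | zero => exact ⟨0, fun v _ h => absurd h (by omega)⟩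
    | succ N ih =>
      obtain ⟨l, hl⟩ := ih
      refine ⟨fun v => if d v = N then l (f v).1 + sgn (f v).2 else l v, fun v hv h => ?_⟩
      have := hd v hv
      beta_reduce
      rw [if_neg (show d (f v).1 ≠ N by omega)]
      split_ifs with h1
      · rfl
      · exact hl v hv (by omega)
  obtain ⟨l, hl⟩ := this (univ.sup d + 1)
  exact ⟨l, fun v hv => hl v hv (Nat.lt_succ_of_le (le_sup (mem_univ v)))⟩

lemma Rt.fix {r : V} {f : PF V} (h : Rt r f) {ρ : V → V} (h1 : ∀ a b, Ed f a b → Ed f (ρ a) (ρ b))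
    (h2 : ∀ v, ρ (ρ v) = ρ v) (hr : ρ r = r) {t : V} (ht : ρ t = t) (k : ℕ) :
    ρ ((fun v => (f v).1)^[k] t) = (fun v => (f v).1)^[k] t := by
  set y := (fun v => (f v).1)^[k] t with hy
  by_cases hyr : y = r
  · rw [hyr, hr]
  by_contra hc
  have hn : ∀ v, ρ v ≠ y := fun v e => hc (by rw [← e, h2])
  have hD : ∀ x, x ≠ y → ((∃ j, (fun v => (f v).1)^[j] x = y) ↔
      ∃ j, (fun v => (f v).1)^[j] (f x).1 = y) := by
    intro x hx
    constructor
    · rintro ⟨j, hj⟩
      rcases j with _ | j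
      · exact absurd hj hx
      · exact ⟨j, hj⟩
    · rintro ⟨j, hj⟩; exact ⟨j + 1, hj⟩
  refine h.ind (fun v => ¬ ∃ j, (fun v => (f v).1)^[j] (ρ v) = y) ?_ ?_ t ⟨k, by rw [ht]⟩
  · rintro ⟨j, hj⟩
    rw [hr, Function.iterate_fixed (by simp only [h.root])] at hj
    exact hyr hj.symm
  · intro a b e
    refine not_congr ?_
    rcases h.par (h1 a b e) with ⟨-, e⟩ | ⟨-, e⟩
    · rw [hD _ (hn a), e]
    · rw [hD _ (hn b), e]

lemma idem (e : V → V) : ∃ k, ∀ v, e^[k + 1] (e^[k + 1] v) = e^[k + 1] v := by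
  obtain ⟨a, b, hab, h⟩ : ∃ a b : ℕ, a < b ∧ e^[a] = e^[b] := by
    obtain ⟨a, b, hab, h⟩ := Finite.exists_ne_map_eq_of_infinite (fun n : ℕ => e^[n])
    rcases lt_or_gt_of_ne hab with h' | h'
    · exact ⟨a, b, h', h⟩
    · exact ⟨b, a, h', h.symm⟩
  obtain ⟨p, rfl⟩ := Nat.exists_eq_add_of_lt hab
  have h1 : ∀ j c, e^[c + a + (p + 1) * j] = e^[c + a] := by
    intro j
    induction j with
    | zero => simp
    | succ j ih =>
      intro c
      rw [show c + a + (p + 1) * (j + 1) = (c + (p + 1) * j) + (a + p + 1) by ring,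
        Function.iterate_add, ← h, ← Function.iterate_add, ← ih c]
      congr 1; ring
  refine ⟨p * a + p + a, fun v => ?_⟩
  rw [← Function.iterate_add_apply]
  have := h1 (a + 1) (p * a + p + 1)
  rw [show p * a + p + a + 1 + (p * a + p + a + 1) = p * a + p + 1 + a + (p + 1) * (a + 1) by ring,
    this]
  congr 1; ring

lemma sig_idem {E : V → V → Prop} {s : V → V → V → V → V} (hs : Sig E s) :
    ∃ s', Sig E s' ∧ ∀ v, s' (s' v v v v) (s' v v v v) (s' v v v v) (s' v v v v) = s' v v v v := by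
  obtain ⟨k, hk⟩ := idem (fun v => s v v v v)
  have h : ∀ k a b, E a b → E ((fun v => s v v v v)^[k] a) ((fun v => s v v v v)^[k] b) := by
    intro k
    induction k with
    | zero => intro a b h; exact h
    | succ k ih => intro a b h; exact ih _ _ (hs.pol _ _ _ _ _ _ _ _ h h h h)
  exact ⟨fun a b c d => (fun v => s v v v v)^[k] (s a b c d), ⟨fun a r e => by rw [hs.id],
    fun _ _ _ _ _ _ _ _ h1 h2 h3 h4 => h _ _ _ (hs.pol _ _ _ _ _ _ _ _ h1 h2 h3 h4)⟩, hk⟩

def pat (k : ℕ) : Bool := decide (k = 5 ∨ k = 6 ∨ k = 8 ∨ k = 9 ∨ k = 11)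

def pk (j : ℕ) : ℕ := if j = 0 then 9 else if j ≤ 8 then j - 1 else if j ≤ 15 then j + 1 else
  if j = 16 then 0 else j - 1

def dk (j : ℕ) : Bool := if j ≤ 8 then pat (9 - j) else if j ≤ 15 then pat (j + 1) else
  decide (j ≠ 17 ∧ j ≠ 18)

lemma cfg_of {f : PF V} {g : ℕ → V} {o : V} (h1 : ∀ i < 22, ∀ j < 22, g i = g j → i = j)
    (h2 : ∀ j < 22, j ≠ 15 → f (g j) = (g (pk j), dk j)) (h3 : f (g 15) = (o, false))
    (h4 : ∀ j < 22, o ≠ g j)
    (h5 : ∀ v, ∀ j < 22, (f v).1 = g j → v ≠ g j → (∃ i < 22, v = g i) ∨ (j = 8 ∧ (f v).2 = false)) :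
    Cfg (Ed f) g := by
  have k1 : ∀ e ∈ KL, e.1 ≠ e.2 ∧ ((e.1 ≠ 15 ∧ pk e.1 = e.2 ∧ dk e.1 = true) ∨
    (e.2 ≠ 15 ∧ pk e.2 = e.1 ∧ dk e.2 = false)) := by decide
  have k2 : ∀ j < 22, j ≠ 15 → pk j < 22 ∧ (dk j = true → (j, pk j) ∈ KL) ∧
    (dk j = false → (pk j, j) ∈ KL) := fun j hj => by interval_cases j <;> decide
  have h6 : ∀ i < 22, ∀ j < 22, ∀ b, f (g i) = (g j, b) → i ≠ 15 ∧ pk i = j ∧ dk i = b := by
    intro i hi j hj b e
    by_cases h : i = 15
    · rw [h, h3] at e; exact absurd (Prod.mk.inj e).1 (h4 j hj)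
    · rw [h2 i hi h] at e
      exact ⟨h, h1 _ (k2 i hi h).1 _ hj (Prod.mk.inj e).1, (Prod.mk.inj e).2⟩
  refine ⟨h1, fun e he => ?_, fun i hi h8 w e => ?_, fun i hi h15 w e => ?_⟩
  · obtain ⟨a, b⟩ := KL_lt e he
    obtain ⟨c, d⟩ := k1 e he
    refine ⟨fun h => c (h1 _ a _ b h), ?_⟩
    rcases d with d | d
    · left; rw [h2 _ a d.1, d.2.1, d.2.2]
    · right; rw [h2 _ b d.1, d.2.1, d.2.2]
  · obtain ⟨hne, e | e⟩ := e
    · by_cases h : i = 15
      · rw [h, h3] at e; simp at e
      · rw [h2 i hi h] at e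
        exact ⟨_, (k2 i hi h).2.1 (Prod.mk.inj e).2, (Prod.mk.inj e).1.symm⟩
    · rcases h5 w i hi (by rw [e]) hne.symm with ⟨j, hj, rfl⟩ | h
      · obtain ⟨a, rfl, c⟩ := h6 j hj i hi _ e
        exact ⟨j, (k2 j hj a).2.2 c, rfl⟩
      · exact absurd h.1 h8
  · obtain ⟨hne, e | e⟩ := e
    · rcases h5 w i hi (by rw [e]) hne with ⟨j, hj, rfl⟩ | h
      · obtain ⟨a, rfl, c⟩ := h6 j hj i hi _ e
        exact ⟨j, (k2 j hj a).2.1 c, rfl⟩
      · rw [e] at h; simp at h
    · rw [h2 i hi h15] at e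
      exact ⟨_, (k2 i hi h15).2.2 (Prod.mk.inj e).2, (Prod.mk.inj e).1.symm⟩

lemma chain_lt {d : V → ℕ} {X : ℕ → V} {M : ℕ} (h : ∀ k < M, d (X (k + 1)) < d (X k)) :
    ∀ l ≤ M, ∀ k < l, d (X l) < d (X k) := by
  intro l
  induction l with
  | zero => intro _ k hk; omega
  | succ l ih =>
    intro hl k hk
    have := h l (by omega)
    rcases Nat.lt_succ_iff_lt_or_eq.1 hk with h' | rfl
    · have := ih (by omega) k h'; omega
    · exact this

lemma det {b : V} {f : PF V} (hf : Rt b f) {s : V → V → V → V → V} (hs : Sig (Ed f) s) {J : ℕ}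
    {X : ℕ → V} (h1 : ∀ k < 17 * J, (f (X k)).1 = X (k + 1)) (h2 : ∀ k < 17 * J, X k ≠ b)
    (h3 : ∀ k < 17 * J, s (X k) (X k) (X k) (X k) = X k) {U : Finset V}
    (hU : ∀ v, v ∈ U ↔ v ≠ b ∧ ∀ k < 17 * J, X k ≠ v) :
    NG X (fun i => ∀ k < 17, (f (X (17 * i + k))).2 = pat k) J U (res U f) := by
  rintro i hi ha ⟨h, g1, g2, g3, g4⟩
  obtain ⟨d, hd⟩ := hf.dd
  have hl := chain_lt (d := d) (X := X) (M := 17 * J) fun k hk => by
    rw [← h1 k hk]; exact hd _ (h2 k hk)
  have hi' : ∀ k ≤ 17 * J, ∀ l ≤ 17 * J, X k = X l → k = l := fun k hk l hl' e => by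
    rcases lt_trichotomy k l with h | h | h
    · have := hl l hl' k h; rw [e] at this; omega
    · exact h
    · have := hl k hk l h; rw [e] at this; omega
  have g3' : ∀ k < 6, f (h k) = hp (fun k => X (17 * i + k)) h k := fun k hk => by
    have := g3 k hk; simpa only [res, if_pos (g1 k hk)] using this
  have g5 : ∀ k < 6, d (X (17 * i + 9)) < d (h k) := by
    intro k
    induction k with
    | zero =>
      intro hk
      have := hd _ ((hU _).1 (g1 0 hk)).1
      rwa [g3' 0 hk] at this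
    | succ k ih =>
      intro hk
      have := hd _ ((hU _).1 (g1 _ hk)).1
      rw [g3' _ hk] at this
      exact (ih (by omega)).trans this
  have g6 : ∀ k < 6, ∀ l ≤ 17 * J, X l ≠ h k := fun k hk l hl' e => by
    rcases hl'.lt_or_eq with h | rfl
    · exact ((hU _).1 (g1 k hk)).2 l h e
    · have := hl _ le_rfl (17 * i + 9) (by omega)
      have := g5 k hk
      rw [e] at *; omega
  let ix : ℕ → ℕ := fun j => if j ≤ 8 then 9 - j else j + 1
  let g : ℕ → V := fun j => if j ≤ 15 then X (17 * i + ix j) else h (j - 16)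
  have ix1 : ∀ j ≤ 15, 1 ≤ ix j ∧ ix j ≤ 16 := by decide
  have ix2 : ∀ j ≤ 15, ∀ k ≤ 15, ix j = ix k → j = k := by decide
  have ix3 : ∀ j < 15, pk j ≤ 15 ∧ ix (pk j) = ix j + 1 ∧ dk j = pat (ix j) := by decide
  have ix4 : ∀ k < 17, k ≠ 0 → ∃ j ≤ 15, ix j = k := by decide
  refine no_cfg (g := g) (cfg_of (o := X (17 * i + 17)) ?_ ?_ ?_ ?_ ?_) hs ?_
  · intro j hj k hk e
    simp only [g] at e
    split_ifs at e with a1 a2 a2
    · have := ix1 j a1; have := ix1 k a2
      have := hi' _ (by omega) _ (by omega) e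
      exact ix2 j a1 k a2 (by omega)
    · have := ix1 j a1
      exact absurd e (g6 _ (by omega) _ (by omega))
    · have := ix1 k a2
      exact absurd e.symm (g6 _ (by omega) _ (by omega))
    · have := g2 _ (by omega) _ (by omega) e; omega
  · intro j hj h15
    by_cases a1 : j ≤ 15
    · obtain ⟨b1, b2, b3⟩ := ix3 j (by omega)
      have := ix1 j a1
      simp only [g, if_pos a1, if_pos b1, b2, b3]
      exact Prod.ext (h1 _ (by omega)) (ha _ (by omega))
    · simp only [g, if_neg a1]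
      rw [g3' _ (by omega)]
      have : 16 ≤ j := by omega
      interval_cases j <;> rfl
  · exact Prod.ext (h1 (17 * i + 16) (by omega)) (ha 16 (by omega))
  · intro j hj e
    simp only [g] at e
    split_ifs at e with a1
    · have := ix1 j a1
      have := hi' _ (by omega) _ (by omega) e
      omega
    · exact g6 _ (by omega) _ (by omega) e
  · intro v j hj e hne
    by_cases hv : v ∈ U
    · obtain ⟨k, hk, rfl⟩ := g4 v hv (by
        simp only [res, if_pos hv, e, g]
        split_ifs with a1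
        · exact Or.inl ⟨_, by have := ix1 j a1; omega, rfl⟩
        · exact Or.inr ⟨_, by omega, rfl⟩)
      exact Or.inl ⟨k + 16, by omega, by simp only [g]; rw [if_neg (by omega), Nat.add_sub_cancel]⟩
    · rw [hU] at hv
      by_cases hb : v = b
      · rw [hb, hf.root] at e; exact absurd (hb.trans e) hne
      simp only [hb, ne_eq, not_false_eq_true, true_and, not_forall, not_not] at hv
      obtain ⟨k, hk, rfl⟩ := hv
      rw [h1 k hk] at e
      simp only [g] at e
      split_ifs at e with a1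
      · have := ix1 j a1
        have h7 := hi' _ (by omega) _ (by omega) e
        by_cases h0 : ix j = 1
        · refine Or.inr ⟨ix2 j a1 8 (by omega) h0, ?_⟩
          rw [show k = 17 * i + 0 by omega]; exact ha 0 (by omega)
        · obtain ⟨j', b1, b2⟩ := ix4 (ix j - 1) (by omega) (by omega)
          refine Or.inl ⟨j', by omega, ?_⟩
          simp only [g, if_pos b1, b2]
          congr 1; omega
      · exact absurd e (g6 _ (by omega) _ (by omega))
  · intro j hj
    have := ix1 j (by omega)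
    simp only [g, if_pos (show j ≤ 15 by omega)]
    exact h3 _ (by omega)

lemma dich {E : V → V → Bool} (hE : IsT E) {s : V → V → V → V → V}
    (hs : Sig (fun a b => E a b = true) s) (r : V) (J : ℕ) :
    (∃ f, Rt r f ∧ E = Ef f ∧ ∃ x : ℕ, x ≤ 17 * J ∧
      Lv (17 * J) {r} (univ.erase r) (fun _ => x) f) ∨
    ∃ b f, Rt b f ∧ E = Ef f ∧ ∃ X : ℕ → V, (∀ k < 17 * J, (f (X k)).1 = X (k + 1)) ∧
      (∀ k < 17 * J, X k ≠ b) ∧ ∃ s, Sig (Ed f) s ∧ ∀ k < 17 * J, s (X k) (X k) (X k) (X k) = X k := by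
  have hc : ∀ r, ∃ f, Rt r f ∧ (fun a b => E a b = true) = Ed f ∧ E = Ef f := fun r => by
    obtain ⟨f, h1, h2⟩ := code hE r
    refine ⟨f, h1, funext₂ fun a b => propext (h2 a b), funext₂ fun a b => ?_⟩
    rw [Bool.eq_iff_iff, h2]; simp [Ef]
  obtain ⟨f, f1, f2, f3⟩ := hc r
  obtain ⟨l, hl⟩ := f1.lev
  have hl' : ∀ a b, E a b = true → l b = l a + 1 := fun a b e => by
    have e : Ed f a b := by rw [← f2]; exact e
    rcases f1.par e with ⟨a1, a2⟩ | ⟨a1, a2⟩
    · have := hl _ a1; rw [a2] at this; simp [sgn] at this; omega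
    · have := hl _ a1; rw [a2] at this; simpa [sgn] using this
  obtain ⟨b0, -, hb⟩ := exists_min_image univ l ⟨r, mem_univ _⟩
  obtain ⟨t0, -, ht⟩ := exists_max_image univ l ⟨r, mem_univ _⟩
  by_cases hL : l t0 - l b0 ≤ 17 * J
  · refine Or.inl ⟨f, f1, f3, (l r - l b0).toNat, ?_, fun v => l v - l b0, fun v hv => ?_,
      fun v hv => ?_⟩
    · have := ht r (mem_univ _); omega
    · have := hb r (mem_univ _); rw [mem_singleton.1 hv]; beta_reduce; omega
    · have := hb v (mem_univ _); have := ht v (mem_univ _)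
      have := hl v (by simpa using hv)
      push_cast; omega
  obtain ⟨s, hs, hi⟩ := sig_idem hs
  have hρ : ∀ a b, E a b = true → E (s a a a a) (s b b b b) = true := fun a b h =>
    hs.pol _ _ _ _ _ _ _ _ h h h h
  have hd : ∀ v, l (s v v v v) - l v = l (s r r r r) - l r := f1.ind _ rfl fun a b e => by
    have e : E a b = true := by rw [← f2] at e; exact e
    rw [hl' _ _ e, hl' _ _ (hρ _ _ e)]; omega
  obtain ⟨g, g1, g2, g3⟩ := hc (s b0 b0 b0 b0)
  have hg : ∀ v, l v - 1 ≤ l (g v).1 := fun v => by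
    by_cases hv : v = s b0 b0 b0 b0
    · rw [hv, g1.root]; simp
    · rcases g1.ed hv with ⟨e, -⟩ | ⟨e, -⟩ <;> rw [← g2] at e <;> have := hl' _ _ e <;> omega
  have hk : ∀ k : ℕ, l (s t0 t0 t0 t0) - k ≤ l ((fun v => (g v).1)^[k] (s t0 t0 t0 t0)) := by
    intro k
    induction k with
    | zero => simp
    | succ k ih =>
      rw [Function.iterate_succ_apply']
      have := hg ((fun v => (g v).1)^[k] (s t0 t0 t0 t0))
      push_cast; omega
  refine Or.inr ⟨_, g, g1, g3, fun k => (fun v => (g v).1)^[k] (s t0 t0 t0 t0),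
    fun k _ => by simp only [Function.iterate_succ_apply'], fun k hk' e => ?_, s, g2 ▸ hs,
    fun k _ => g1.fix (ρ := fun v => s v v v v) (by rw [← g2]; exact hρ) hi (hi _) (hi _) k⟩
  have := hk k
  have := hd t0
  have := hd b0
  simp only at e
  rw [e] at *
  omega

end Pool.Agent.H.MP_2709b3_lc
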