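import Pool.Agent.H.MP_2709b3_lc.D

set_option autoImplicit false
set_option linter.unusedSectionVars false
set_option linter.unusedVariables false

namespace Pool.Agent.H.MP_2709b3_lc

open Finset Classical

variable {V : Type*} [Fintype V] [DecidableEq V]

lemma tr_ge (r : V) {k : ℕ} (hk : Fintype.card V = k + 2) :
    ((k : ℝ) + 2) ^ k * 2 ^ (k + 1) ≤ (univ.filter (IsT (V := V))).card := by
  have h := card_fo (k + 1) {r} (univ.erase r) (by simp)
    (by rw [card_erase_of_mem (mem_univ _), card_univ, hk]; rfl)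
  have h2 : (Fo {r} (univ.erase r)).card ≤ (univ.filter (IsT (V := V))).card :=
    card_le_card_of_injOn Ef (fun f hf => by simpa using decode (r := r) (mem_fo.1 hf))
      fun f hf g hg e => ef_inj (r := r) (mem_fo.1 hf) (mem_fo.1 hg) e
  refine le_trans (le_of_eq ?_) (Nat.cast_le.2 h2)
  rw [h]
  simp only [ph, card_singleton, Nat.add_one_ne_zero, if_false, Nat.add_sub_cancel]
  push_cast; ring

lemma exp_neg_le {a : ℝ} (ha : 0 ≤ a) : Real.exp (-a) ≤ 1 - a + a ^ 2 := by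
  rw [Real.exp_neg, inv_le_iff_one_le_mul₀ (Real.exp_pos _)]
  have h := Real.add_one_le_exp a
  have h2 : 0 ≤ 1 - a + a ^ 2 := by nlinarith [sq_nonneg (a - 1)]
  have h3 : 0 ≤ a ^ 3 := by positivity
  nlinarith [mul_le_mul_of_nonneg_left h h2]

noncomputable def ep (L : ℕ) : ℝ := 1 / (4 * ((L : ℝ) + 1) ^ 4)

lemma b1 (r : V) {k : ℕ} (hk : Fintype.card V = k + 1) (L : ℕ) :
    ((univ.filter (fun E : V → V → Bool => ∃ f, Rt r f ∧ E = Ef f ∧ ∃ x : ℕ, x ≤ L ∧
      Lv L {r} (univ.erase r) (fun _ => x) f)).card : ℝ) ≤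
      (L + 1) * (k.factorial / ((1 + ep L) * z0) ^ (k + 1)) := by
  have hz := z0_pos
  have he : 0 < ep L := by unfold ep; positivity
  have hQ : (1 : ℝ) ≤ ((L : ℝ) + 1) ^ 2 := one_le_pow₀ (by have := Nat.cast_nonneg (α := ℝ) L; linarith)
  have hq : ep L * (4 * (((L : ℝ) + 1) ^ 2) ^ 2) = 1 := by unfold ep; field_simp
  have hb : ∀ y : ℝ, 0 ≤ y → y ≤ ((L : ℝ) + 1) ^ 2 → 2 * ep L * y ≤ 1 ∧ (2 * ep L * y) ^ 2 ≤ ep L := by
    intro y h0 h1
    have h2 : y ^ 2 ≤ (((L : ℝ) + 1) ^ 2) ^ 2 := pow_le_pow_left₀ h0 h1 2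
    have h3 : ((L : ℝ) + 1) ^ 2 ≤ (((L : ℝ) + 1) ^ 2) ^ 2 := by nlinarith
    constructor
    · nlinarith
    · have : ep L * (4 * y ^ 2) ≤ 1 := by nlinarith
      nlinarith
  have h := lv_bound (V := V) L (fun x => (1 - 2 * ep L * x ^ 2) / 2) ((1 + ep L) * z0)
    (by positivity) (fun x h1 h2 => by
      have h1 : (-1 : ℝ) ≤ x := by exact_mod_cast h1
      have h2 : (x : ℝ) ≤ L + 1 := by exact_mod_cast h2
      have h3 := Nat.cast_nonneg (α := ℝ) L
      have := (hb (x ^ 2) (sq_nonneg _) (sq_le_sq' (by linarith) h2)).1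
      linarith) (fun x h1 h2 => by
      have h1 : (0 : ℝ) ≤ x := by exact_mod_cast h1
      have h2 : (x : ℝ) ≤ L := by exact_mod_cast h2
      obtain ⟨a1, a2⟩ := hb (x ^ 2 + 1) (by positivity) (by nlinarith)
      have a0 : 0 ≤ 2 * ep L * (x ^ 2 + 1) := by positivity
      have a3 := exp_neg_le a0
      have a4 : (1 - 2 * ep L * ((x + -1 : ℤ) : ℝ) ^ 2) / 2 + (1 - 2 * ep L * ((x + 1 : ℤ) : ℝ) ^ 2) / 2
        = 1 + -(2 * ep L * (x ^ 2 + 1)) := by push_cast; ring
      have a5 : z0 * Real.exp 1 = 1 / 2 := by unfold z0; field_simp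
      beta_reduce
      rw [a4, Real.exp_add, mul_assoc, ← mul_assoc z0, a5]
      set a := 2 * ep L * (x ^ 2 + 1) with ha
      have a6 : 1 - a + a ^ 2 ≤ 1 := by nlinarith
      have a7 : 2 * ep L * x ^ 2 = a - 2 * ep L := by rw [ha]; ring
      rw [a7]
      nlinarith [mul_le_mul_of_nonneg_left a3 (show 0 ≤ 1 + ep L by linarith)]) k
  refine le_trans (Nat.cast_le.2 (card_le_card (t := (range (L + 1)).biUnion fun x : ℕ =>
    ((Fo {r} (univ.erase r)).filter (Lv L {r} (univ.erase r) (fun _ => x))).image Ef)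
    fun E hE => ?_)) ?_
  · obtain ⟨f, f1, rfl, x, x1, x2⟩ := (mem_filter.1 hE).2
    exact mem_biUnion.2 ⟨x, mem_range.2 (by omega),
      mem_image_of_mem _ (mem_filter.2 ⟨mem_fo.2 f1, x2⟩)⟩
  refine (Nat.cast_le.2 card_biUnion_le).trans ?_
  push_cast
  refine (sum_le_card_nsmul _ _ (k.factorial / ((1 + ep L) * z0) ^ (k + 1)) fun x hx => ?_).trans
    (by simp)
  have hx := mem_range.1 hx
  refine (Nat.cast_le.2 card_image_le).trans ((h _ _ _ (by simp)
    (by rw [card_erase_of_mem (mem_univ _), card_univ, hk]; rfl)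
    (fun _ _ => ⟨by omega, by omega⟩)).trans ?_)
  rw [prod_singleton, pow_succ _ k, ← div_div (k.factorial : ℝ), div_eq_mul_one_div (_ / _ ^ k)]
  refine mul_le_mul_of_nonneg_left (div_le_div_of_nonneg_right ?_ (by positivity)) (by positivity)
  have : 0 ≤ 2 * ep L * ((x : ℤ) : ℝ) ^ 2 := by positivity
  linarith

def XX {M : ℕ} (e : Fin (M + 1) ↪ V) (w : V) (k : ℕ) : V :=
  if h : k < M then e ⟨k, by omega⟩ else w

def pt : Fin 17 → Bool := fun k => pat k

instance : Nonempty (PF V) := ⟨fun v => (v, true)⟩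

def ac {J : ℕ} (δ : Fin J → Fin 17 → Bool) (i : ℕ) : Prop := ∃ h : i < J, δ ⟨i, h⟩ = pt

def Rel {J : ℕ} (e : Fin (17 * J + 1) ↪ V) (w : V) (δ : Fin J → Fin 17 → Bool) (g f : PF V) :
    Prop :=
  (∀ v ∈ univ \ univ.map e, f v = g v) ∧
    (∀ (i : Fin J) (k : Fin 17), f (XX e w (17 * i + k)) = (XX e w (17 * i + k + 1), δ i k)) ∧
      f (e (Fin.last _)) = (e (Fin.last _), false)

lemma xx_im {M : ℕ} (e : Fin (M + 1) ↪ V) (w : V) :
    (range M).image (XX e w) ∪ {e (Fin.last _)} = univ.map e := by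
  ext v
  simp only [mem_union, mem_image, mem_range, mem_singleton, mem_map, mem_univ, true_and]
  constructor
  · rintro (⟨k, hk, rfl⟩ | rfl)
    · exact ⟨_, by simp only [XX, dif_pos hk]; rfl⟩
    · exact ⟨_, rfl⟩
  · rintro ⟨k, rfl⟩
    by_cases hk : (k : ℕ) < M
    · exact Or.inl ⟨k, hk, by simp only [XX, dif_pos hk]⟩
    · right; congr 1; ext; have := k.2; simp only [Fin.val_last]; omega

lemma rel_uniq {J : ℕ} {e : Fin (17 * J + 1) ↪ V} {w : V} {δ : Fin J → Fin 17 → Bool}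
    {g f f' : PF V} (h : Rel e w δ g f) (h' : Rel e w δ g f') : f = f' := by
  funext v
  by_cases hv : v ∈ univ.map e
  · rw [← xx_im e w] at hv
    rcases mem_union.1 hv with hv | hv
    · obtain ⟨k, hk, rfl⟩ := mem_image.1 hv
      have hk := mem_range.1 hk
      have a := h.2.1 ⟨k / 17, by omega⟩ ⟨k % 17, by omega⟩
      have b := h'.2.1 ⟨k / 17, by omega⟩ ⟨k % 17, by omega⟩
      simp only [Nat.div_add_mod] at a b
      rw [a, b]
    · rw [mem_singleton.1 hv, h.2.2, h'.2.2]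
  · have : v ∈ univ \ univ.map e := mem_sdiff.2 ⟨mem_univ _, hv⟩
    rw [h.1 v this, h'.1 v this]

lemma b2 {J m : ℕ} (hm : Fintype.card V = 17 * J + 1 + m) :
    ((univ.filter (fun E : V → V → Bool => ∃ b f, Rt b f ∧ E = Ef f ∧ ∃ X : ℕ → V,
      (∀ k < 17 * J, (f (X k)).1 = X (k + 1)) ∧ (∀ k < 17 * J, X k ≠ b) ∧
        ∃ s, Sig (Ed f) s ∧ ∀ k < 17 * J, s (X k) (X k) (X k) (X k) = X k)).card : ℝ) ≤
      (Fintype.card V).factorial * Fintype.card V * (Real.exp 1 / z0 ^ m *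
        (2 ^ 17 * Real.exp 17 - cc) ^ J) := by
  have hz := z0_pos
  refine le_trans (Nat.cast_le.2 (card_le_card (t := univ.biUnion
    fun p : (Fin (17 * J + 1) ↪ V) × V × (Fin J → Fin 17 → Bool) =>
    ((Fo (univ.map p.1) (univ \ univ.map p.1)).filter
      (NG (XX p.1 p.2.1) (ac p.2.2) J (univ \ univ.map p.1))).image
        fun g => Ef (Classical.epsilon (Rel p.1 p.2.1 p.2.2 g))) fun E hE => ?_)) ?_
  · obtain ⟨b, f, f1, rfl, X, x1, x2, s, s1, s2⟩ := (mem_filter.1 hE).2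
    obtain ⟨d, hd⟩ := f1.dd
    have hl := chain_lt (d := d) (X := X) (M := 17 * J) fun k hk => by
      rw [← x1 k hk]; exact hd _ (x2 k hk)
    let e : Fin (17 * J + 1) ↪ V := ⟨fun k => if (k : ℕ) < 17 * J then X k else b, by
      intro k l h
      ext
      have := k.2; have := l.2
      beta_reduce at h
      split_ifs at h with a1 a2 a2
      · rcases lt_trichotomy (k : ℕ) l with h' | h' | h'
        · have := hl l a2.le k h'; rw [h] at this; omega
        · exact h'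
        · have := hl k a1.le l h'; rw [h] at this; omega
      · exact absurd h (x2 _ a1)
      · exact absurd h.symm (x2 _ a2)
      · omega⟩
    have e1 : e (Fin.last _) = b := by simp [e]
    have e2 : ∀ k ≤ 17 * J, XX e (X (17 * J)) k = X k := fun k hk => by
      unfold XX
      split_ifs with h
      · simp [e, h]
      · rw [show k = 17 * J by omega]
    have hU : ∀ v, v ∈ univ \ univ.map e ↔ v ≠ b ∧ ∀ k < 17 * J, XX e (X (17 * J)) k ≠ v := by
      intro v
      rw [← xx_im e (X (17 * J)), e1]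
      simp only [mem_sdiff, mem_univ, mem_union, mem_image, mem_range, mem_singleton, true_and,
        not_or, not_exists, not_and, ne_eq]
      exact and_comm
    have hN := det f1 s1 (X := XX e (X (17 * J)))
      (fun k hk => by rw [e2 _ hk.le, e2 _ hk]; exact x1 k hk)
      (fun k hk => by rw [e2 _ hk.le]; exact x2 k hk)
      (fun k hk => by rw [e2 _ hk.le]; exact s2 k hk) hU
    let δ : Fin J → Fin 17 → Bool := fun i k => (f (XX e (X (17 * J)) (17 * i + k))).2
    have hR : Rel e (X (17 * J)) δ (res (univ \ univ.map e) f) f := by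
      refine ⟨fun v hv => by simp only [res, if_pos hv], fun i k => Prod.ext ?_ rfl, ?_⟩
      · have := i.2; have := k.2
        rw [e2 _ (by omega), e2 _ (by omega)]; exact x1 _ (by omega)
      · rw [e1, f1.root]
    refine mem_biUnion.2 ⟨(e, X (17 * J), δ), mem_univ _, mem_image.2
      ⟨res (univ \ univ.map e) f, mem_filter.2 ⟨mem_fo.2 (res_fo f1 (fun v hv => ?_)
        fun v hv => ?_), fun i hi ha => hN i hi fun k hk => ?_⟩, ?_⟩⟩
    · simpa using ((hU v).1 hv).1
    · simp only [mem_sdiff, mem_univ, true_and]; exact Classical.em _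
    · obtain ⟨h, ha⟩ := ha
      exact congrFun ha ⟨k, hk⟩
    · rw [rel_uniq (Classical.epsilon_spec ⟨f, hR⟩) hR]
  refine (Nat.cast_le.2 card_biUnion_le).trans ?_
  push_cast
  have h1 : ∀ p : (Fin (17 * J + 1) ↪ V) × V × (Fin J → Fin 17 → Bool),
      ((((Fo (univ.map p.1) (univ \ univ.map p.1)).filter
      (NG (XX p.1 p.2.1) (ac p.2.2) J (univ \ univ.map p.1))).image
        fun g => Ef (Classical.epsilon (Rel p.1 p.2.1 p.2.2 g))).card : ℝ) ≤
      m.factorial * (Real.exp 1 / z0 ^ m *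
        ∏ i, (Real.exp 17 - if p.2.2 i = pt then cc else 0)) := by
    rintro ⟨e, w, δ⟩
    obtain ⟨a, a0, a1, a2⟩ := blk (XX e w) (ac δ) {e (Fin.last _)} J (fun k hk l hl h => by
      simp only [XX, dif_pos hk, dif_pos hl] at h
      exact congrArg Fin.val (e.injective h)) (fun k hk h => by
      simp only [XX, dif_pos hk, mem_singleton] at h
      have := congrArg Fin.val (e.injective h)
      simp only [Fin.val_last] at this; omega)
    rw [xx_im] at a2
    have hc : (univ \ univ.map e).card = m := by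
      rw [card_sdiff_of_subset (subset_univ _), card_map, card_univ, card_univ, hm]; simp
    refine (Nat.cast_le.2 card_image_le).trans ((a2 _ disjoint_sdiff).trans ?_)
    rw [hc]
    refine mul_le_mul_of_nonneg_left ?_ (Nat.cast_nonneg _)
    rw [div_mul_eq_mul_div, le_div_iff₀ (by positivity)]
    refine (single_le_sum (f := fun m => a m * z0 ^ m) (fun i _ => mul_nonneg (a0 i)
      (by positivity)) (self_mem_range_succ m)).trans ((a1 _).trans (le_of_eq ?_))
    rw [← Fin.prod_univ_eq_prod_range (fun i => Real.exp 17 - if ac δ i then cc else 0)]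
    simp [ac]
  refine (sum_le_sum fun p _ => h1 p).trans (le_of_eq ?_)
  have h2 : ∑ δ : Fin J → Fin 17 → Bool, ∏ i, (Real.exp 17 - if δ i = pt then cc else 0) =
      (2 ^ 17 * Real.exp 17 - cc) ^ J := by
    rw [← Fintype.sum_pow (fun δ : Fin 17 → Bool => Real.exp 17 - if δ = pt then cc else 0),
      sum_sub_distrib, sum_ite_eq']
    simp only [sum_const, card_univ, Fintype.card_fun, Fintype.card_bool, Fintype.card_fin,
      nsmul_eq_mul, mem_univ, if_true]
    norm_num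
  simp only [Fintype.sum_prod_type, ← mul_sum]
  simp only [h2, sum_const, card_univ, nsmul_eq_mul]
  rw [Fintype.card_embedding_eq, Fintype.card_fin,
    ← Nat.factorial_mul_descFactorial (show 17 * J + 1 ≤ Fintype.card V by omega),
    show Fintype.card V - (17 * J + 1) = m by omega]
  push_cast; ring

lemma fac_le (n : ℕ) : ((n + 1).factorial : ℝ) * Real.exp 1 ^ (n + 1) ≤
    Real.exp 1 * ((n : ℝ) + 1) ^ (n + 2) := by
  induction n with
  | zero => simp
  | succ n ih =>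
    have h0 : (0 : ℝ) < n + 1 := by positivity
    have h1 : Real.exp (1 / ((n : ℝ) + 2)) * (n + 1) ≤ n + 2 := by
      have h := Real.add_one_le_exp (-(1 / ((n : ℝ) + 2)))
      have h2 : Real.exp (1 / ((n : ℝ) + 2)) * Real.exp (-(1 / ((n : ℝ) + 2))) = 1 := by
        rw [← Real.exp_add]; simp
      have h3 : (-(1 / ((n : ℝ) + 2)) + 1) * (n + 2) = n + 1 := by field_simp; ring
      rw [← h3, ← mul_assoc]
      refine mul_le_of_le_one_left (by positivity) ?_
      exact (mul_le_mul_of_nonneg_left h (Real.exp_pos _).le).trans h2.le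
    have h2 := pow_le_pow_left₀ (by positivity) h1 (n + 2)
    rw [mul_pow, ← Real.exp_nat_mul, show ((n + 2 : ℕ) : ℝ) * (1 / ((n : ℝ) + 2)) = 1 by
      push_cast; field_simp] at h2
    rw [Nat.factorial_succ (n + 1)]
    push_cast
    calc ((n : ℝ) + 1 + 1) * (n + 1).factorial * Real.exp 1 ^ (n + 1 + 1)
        = (n + 2) * Real.exp 1 * ((n + 1).factorial * Real.exp 1 ^ (n + 1)) := by ring
      _ ≤ (n + 2) * Real.exp 1 * (Real.exp 1 * ((n : ℝ) + 1) ^ (n + 2)) := by gcongr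
      _ ≤ (n + 2) * Real.exp 1 * ((n : ℝ) + 2) ^ (n + 2) := by gcongr
      _ = _ := by ring

noncomputable def th : ℝ := 1 - cc / (2 ^ 17 * Real.exp 17)

lemma th_lt : th < 1 := by
  have := z0_pos
  have : 0 < cc / (2 ^ 17 * Real.exp 17) := by unfold cc; positivity
  unfold th; linarith

lemma th_nonneg : 0 ≤ th := by
  unfold th
  rw [sub_nonneg, div_le_one (by positivity)]
  have := cc_le
  have := Real.exp_pos 17
  linarith

lemma est {n J : ℕ} (h2 : 2 ≤ n) (hJ : 17 * J + 1 ≤ n) (hn : Fintype.card V = n) :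
    0 < ((univ.filter (IsT (V := V))).card : ℝ) ∧
    ((univ.filter (fun E : V → V → Bool => IsT E ∧ ∃ s, Sig (fun a b => E a b = true) s)).card : ℝ) ≤
      (univ.filter (IsT (V := V))).card * (2 * Real.exp 1 * (17 * J + 1) * n ^ 3 /
        (1 + ep (17 * J)) ^ n + Real.exp 1 * n ^ 4 * th ^ J) := by
  obtain ⟨k, rfl⟩ : ∃ k, n = k + 2 := ⟨n - 2, by omega⟩
  obtain ⟨m, hm⟩ := Nat.exists_eq_add_of_le hJ
  obtain ⟨r⟩ : Nonempty V := Fintype.card_pos_iff.1 (by omega)
  have h1 := tr_ge r hn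
  have h3 := b1 r (k := k + 1) hn (17 * J)
  have h4 := b2 (V := V) (hn.trans hm)
  have h5 := fac_le (k + 1)
  have he : 0 < ep (17 * J) := by unfold ep; positivity
  have hz := z0_pos
  have ht := th_nonneg
  have hx := Real.exp_pos 1
  refine ⟨lt_of_lt_of_le (by positivity) h1, ?_⟩
  refine le_trans ?_ (mul_le_mul_of_nonneg_right h1 (by positivity))
  refine le_trans (Nat.cast_le.2 ((card_le_card fun E hE => ?_).trans (card_union_le _ _)))
    (le_trans (Nat.cast_add _ _).le ((add_le_add h3 h4).trans ?_))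
  · obtain ⟨a, s, b⟩ := (mem_filter.1 hE).2
    simpa only [mem_union, mem_filter, mem_univ, true_and] using dich a b r J
  rw [mul_add]
  push_cast at h5 ⊢
  refine add_le_add ?_ ?_
  · have h6 : ((k + 1).factorial : ℝ) ≤ (k + 1 + 1).factorial :=
      Nat.cast_le.2 (Nat.factorial_le (by omega))
    have h7 : ((k + 1).factorial : ℝ) / ((1 + ep (17 * J)) * z0) ^ (k + 1 + 1) =
        (k + 1).factorial * Real.exp 1 ^ (k + 1 + 1) * (2 ^ (k + 2) / (1 + ep (17 * J)) ^ (k + 2)) := by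
      unfold z0; rw [mul_pow, div_pow, mul_pow, one_pow]; field_simp
    rw [h7]
    calc _ ≤ ((17 : ℝ) * J + 1) * ((Real.exp 1 * ((k : ℝ) + 1 + 1) ^ (k + 1 + 2)) *
        (2 ^ (k + 2) / (1 + ep (17 * J)) ^ (k + 2))) := by
          have h9 := (mul_le_mul_of_nonneg_right h6 (by positivity)).trans h5
          gcongr
      _ = _ := by field_simp; ring
  · have h7 : (2 ^ 17 * Real.exp 17 - cc) = (2 * Real.exp 1) ^ 17 * th := by
      rw [mul_pow, Real.exp_one_pow]; unfold th; push_cast; field_simp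
    have h8 : Real.exp 1 / z0 ^ m * (2 ^ 17 * Real.exp 17 - cc) ^ J =
        Real.exp 1 ^ (k + 1 + 1) * 2 ^ (k + 1) * th ^ J := by
      rw [h7, show k + 1 = 17 * J + m by omega]
      unfold z0; rw [mul_pow, ← pow_mul, div_pow, mul_pow, mul_pow]; field_simp; ring
    rw [h8, hn]
    push_cast
    calc _ = ((k + 1 + 1).factorial * Real.exp 1 ^ (k + 1 + 1)) *
        (((k : ℝ) + 2) * 2 ^ (k + 1) * th ^ J) := by ring
      _ ≤ (Real.exp 1 * ((k : ℝ) + 1 + 1) ^ (k + 1 + 2)) *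
        (((k : ℝ) + 2) * 2 ^ (k + 1) * th ^ J) := by gcongr
      _ = _ := by ring

def tt (n : ℕ) : ℕ := n.sqrt.sqrt.sqrt

lemma tt_le (n : ℕ) : tt n ^ 8 ≤ n := by
  calc tt n ^ 8 = ((tt n ^ 2) ^ 2) ^ 2 := by ring
    _ ≤ (n.sqrt.sqrt ^ 2) ^ 2 := by gcongr; exact Nat.sqrt_le' _
    _ ≤ n.sqrt ^ 2 := by gcongr; exact Nat.sqrt_le' _
    _ ≤ n := Nat.sqrt_le' _

lemma lt_tt (n : ℕ) : n < (tt n + 1) ^ 8 := by
  calc n < (n.sqrt + 1) ^ 2 := Nat.lt_succ_sqrt' _
    _ ≤ ((n.sqrt.sqrt + 1) ^ 2) ^ 2 := by gcongr; exact Nat.lt_succ_sqrt' _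
    _ ≤ (((tt n + 1) ^ 2) ^ 2) ^ 2 := by gcongr; exact Nat.lt_succ_sqrt' _
    _ = _ := by ring

lemma tt_top : Filter.Tendsto tt Filter.atTop Filter.atTop := by
  refine Filter.tendsto_atTop_atTop.2 fun T => ⟨T ^ 8, fun n hn => ?_⟩
  have := lt_of_pow_lt_pow_left₀ 8 (Nat.zero_le _) (hn.trans_lt (lt_tt n))
  omega

lemma est2 {n : ℕ} (h : 75 ≤ tt n) : 2 ≤ n ∧ 17 * tt n + 1 ≤ n ∧
    2 * Real.exp 1 * (17 * (tt n) + 1) * n ^ 3 / (1 + ep (17 * tt n)) ^ n +
      Real.exp 1 * n ^ 4 * th ^ tt n ≤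
    70 * Real.exp 1 * (((tt n + 1 : ℕ) : ℝ) ^ 32 * max th (1 / 2) ^ (tt n + 1)) := by
  have h1 := tt_le n
  have h2 := lt_tt n
  generalize tt n = t at *
  have h3 : 4 * (17 * t + 1) ^ 4 * t ≤ n := by
    calc 4 * (17 * t + 1) ^ 4 * t ≤ 4 * (18 * t) ^ 4 * t := by gcongr; omega
      _ = 419904 * t ^ 5 := by ring
      _ ≤ t ^ 3 * t ^ 5 := by
        gcongr
        exact le_trans (by norm_num) (Nat.pow_le_pow_left h 3)
      _ = t ^ 8 := by ring
      _ ≤ n := h1
  have h4 : 17 * t + 1 ≤ n := by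
    have : 17 * t + 1 ≤ (17 * t + 1) ^ 4 := Nat.le_self_pow (by omega) _
    nlinarith
  refine ⟨by omega, h4, ?_⟩
  have he : 0 < ep (17 * t) := by unfold ep; positivity
  have h5 : (2 : ℝ) ^ t ≤ (1 + ep (17 * t)) ^ n := by
    refine le_trans ?_ (pow_le_pow_right₀ (by linarith) h3)
    rw [pow_mul]
    refine pow_le_pow_left₀ (by norm_num) (le_trans (le_of_eq ?_)
      (one_add_mul_le_pow (by linarith) _)) _
    unfold ep; push_cast; field_simp; norm_num
  have h6 : (n : ℝ) ≤ ((t : ℝ) + 1) ^ 8 := by exact_mod_cast h2.le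
  have hx := Real.exp_pos 1
  have ht := th_nonneg
  set η := max th (1 / 2)
  have a1 : th ≤ η := le_max_left _ _
  have a2 : 1 / 2 ≤ η := le_max_right _ _
  have a3 : (1 : ℝ) ≤ t + 1 := by have := Nat.cast_nonneg (α := ℝ) t; linarith
  have b1 : 2 * Real.exp 1 * (17 * t + 1) * n ^ 3 / (1 + ep (17 * t)) ^ n ≤
      34 * Real.exp 1 * ((t + 1) ^ 32 * η ^ t) := by
    calc _ ≤ 2 * Real.exp 1 * (17 * (t + 1)) * (((t : ℝ) + 1) ^ 8) ^ 3 / 2 ^ t := by
          gcongr; linarith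
      _ = 34 * Real.exp 1 * ((t + 1) ^ 25 * (1 / 2) ^ t) := by
          rw [one_div, inv_pow]; field_simp; ring
      _ ≤ _ := by gcongr; norm_num
  have b2 : Real.exp 1 * n ^ 4 * th ^ t ≤ Real.exp 1 * ((t + 1) ^ 32 * η ^ t) := by
    calc _ ≤ Real.exp 1 * (((t : ℝ) + 1) ^ 8) ^ 4 * η ^ t := by gcongr
      _ = _ := by ring
  have b3 : 0 ≤ Real.exp 1 * ((t + 1) ^ 32 * η ^ t) := by positivity
  push_cast
  rw [pow_succ η]
  nlinarith

lemma lim0 : Filter.Tendsto (fun n : ℕ => ((univ.filter (fun E : Fin n → Fin n → Bool =>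
      IsT E ∧ ∃ s, Sig (fun a b => E a b = true) s)).card : ℝ) /
      (univ.filter (IsT (V := Fin n))).card) Filter.atTop (nhds 0) ∧
    ∀ᶠ n in Filter.atTop, 0 < ((univ.filter (IsT (V := Fin n))).card : ℝ) := by
  have h0 := tt_top.eventually_ge_atTop 75
  have h1 := (tendsto_pow_const_mul_const_pow_of_abs_lt_one 32 (r := max th (1 / 2))
    (by rw [abs_of_nonneg (th_nonneg.trans (le_max_left _ _))]
        exact max_lt th_lt (by norm_num))).comp
    ((Filter.tendsto_add_atTop_nat 1).comp tt_top)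
  have h2 := h1.const_mul (70 * Real.exp 1)
  rw [mul_zero] at h2
  refine ⟨squeeze_zero' (Filter.Eventually.of_forall fun n => by positivity) ?_ h2, ?_⟩
  · filter_upwards [h0] with n hn
    obtain ⟨a, b, c⟩ := est2 hn
    obtain ⟨d, e⟩ := est (V := Fin n) a b (Fintype.card_fin n)
    rw [div_le_iff₀' d]
    exact e.trans (mul_le_mul_of_nonneg_left c d.le)
  · filter_upwards [h0] with n hn
    obtain ⟨a, b, c⟩ := est2 hn
    exact (est (V := Fin n) a b (Fintype.card_fin n)).1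

end Pool.Agent.H.MP_2709b3_lc
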